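import Mathlib

set_option autoImplicit false

/-!
# Step 3a: almost invariance under shifts
-/

namespace Pool.Agent.RestrictedOrder

open Finset

/-- The number of elements of `V` that leave `V` under the shift by `-t`. -/
def esh (V : Finset ℤ) (t : ℤ) : ℕ := (V.filter (fun x => x - t ∉ V)).card

lemma esh_zero (V : Finset ℤ) : esh V 0 = 0 := by
  unfold esh
  rw [card_eq_zero, filter_eq_empty_iff]
  intro x hx
  simpa using hx

lemma esh_add_card (V : Finset ℤ) (t : ℤ) :
    esh V t + (V.filter (fun x => x - t ∈ V)).card = V.card := by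
  unfold esh
  rw [add_comm]
  exact card_filter_add_card_filter_not _

lemma esh_add (V : Finset ℤ) (s t : ℤ) : esh V (s + t) ≤ esh V s + esh V t := by
  unfold esh
  have h1 : V.filter (fun x => x - (s+t) ∉ V) ⊆
      V.filter (fun x => x - s ∉ V) ∪ (V.filter (fun x => x - t ∉ V)).image (fun x => x + s) := by
    intro x hx
    rw [mem_filter] at hx
    rw [mem_union, mem_filter, mem_image]
    by_cases h : x - s ∈ V
    · right
      refine ⟨x - s, ?_, by ring⟩
      rw [mem_filter]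
      refine ⟨h, ?_⟩
      have : x - s - t = x - (s + t) := by ring
      rw [this]; exact hx.2
    · left; exact ⟨hx.1, h⟩
  refine (card_le_card h1).trans ((card_union_le _ _).trans ?_)
  exact Nat.add_le_add_left card_image_le _

lemma esh_neg (V : Finset ℤ) (t : ℤ) : esh V (-t) = esh V t := by
  have h1 := esh_add_card V t
  have h2 := esh_add_card V (-t)
  have h3 : (V.filter (fun x => x - -t ∈ V)).card = (V.filter (fun x => x - t ∈ V)).card := by
    apply card_bij (fun x _ => x + t)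
    · intro x hx
      rw [mem_filter] at hx ⊢
      refine ⟨?_, ?_⟩
      · have := hx.2; rwa [sub_neg_eq_add] at this
      · rw [add_sub_cancel_right]; exact hx.1
    · intro x _ y _ hxy
      exact add_right_cancel hxy
    · intro y hy
      rw [mem_filter] at hy
      refine ⟨y - t, ?_, by ring⟩
      rw [mem_filter]
      refine ⟨hy.2, ?_⟩
      have : y - t - -t = y := by ring
      rw [this]; exact hy.1
  omega

/-- Discrete intermediate value argument: if among any `m` integers of `[0, R]` two have a difference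
under which `V` is almost invariant, then `V` is almost invariant under all multiples of some
`1 ≤ q ≤ m` that lie in `[0, R]`. -/
lemma exists_period (V : Finset ℤ) (m R : ℕ) (hmR : m ≤ R) (η : ℝ) (hη : 0 ≤ η)
    (H : ∀ t : ℕ → ℤ, (∀ i < m, 0 ≤ t i ∧ t i ≤ R) →
      ∃ i j, i < j ∧ j < m ∧ (esh V (t j - t i) : ℝ) ≤ η) :
    ∃ q : ℕ, 1 ≤ q ∧ q ≤ m ∧ ∀ s : ℕ, q * s ≤ R → (esh V ((q * s : ℕ) : ℤ) : ℝ) ≤ 2 * m * η := by
  classical
  obtain ⟨i, j, hij, hjm, he⟩ := H (fun i => (i : ℤ)) (by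
    intro i hi
    refine ⟨by positivity, ?_⟩
    have : i ≤ R := by omega
    exact_mod_cast this)
  have hq : ((j : ℤ) - (i : ℤ)) = ((j - i : ℕ) : ℤ) := by
    rw [Nat.cast_sub hij.le]
  simp only [hq] at he
  set q := j - i with hqdef
  refine ⟨q, by omega, by omega, ?_⟩
  by_contra hcon
  push Not at hcon
  obtain ⟨s', hs'R, hs'⟩ := hcon
  have hex : ∀ k : ℕ, k < m → ∃ s : ℕ, s ≤ s' ∧ 2 * (k:ℝ) * η < (esh V ((q * s : ℕ) : ℤ) : ℝ) := by
    intro k hk
    refine ⟨s', le_rfl, lt_of_le_of_lt ?_ hs'⟩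
    have : (k:ℝ) ≤ m := by exact_mod_cast hk.le
    nlinarith
  -- first index at which the threshold is exceeded
  have hfirst : ∀ k : ℕ, k < m → ∃ s : ℕ, q * s ≤ R ∧
      2 * (k:ℝ) * η < (esh V ((q * s : ℕ) : ℤ) : ℝ) ∧
      (esh V ((q * s : ℕ) : ℤ) : ℝ) ≤ 2 * (k:ℝ) * η + η := by
    intro k hk
    have hP := hex k hk
    have hP' : ∃ s : ℕ, 2 * (k:ℝ) * η < (esh V ((q * s : ℕ) : ℤ) : ℝ) := by
      obtain ⟨s, -, hs⟩ := hP; exact ⟨s, hs⟩
    set s := Nat.find hP' with hsdef
    have hs1 := Nat.find_spec hP'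
    rw [← hsdef] at hs1
    have hsle : s ≤ s' := by
      obtain ⟨s2, h1, h2⟩ := hP
      exact le_trans (Nat.find_min' hP' h2) h1
    have hspos : s ≠ 0 := by
      intro h0
      rw [h0] at hs1
      simp only [mul_zero, Nat.cast_zero, esh_zero] at hs1
      have : 0 ≤ 2 * (k:ℝ) * η := by positivity
      linarith
    obtain ⟨r, hr⟩ := Nat.exists_eq_succ_of_ne_zero hspos
    have hr2 : ¬ (2 * (k:ℝ) * η < (esh V ((q * r : ℕ) : ℤ) : ℝ)) := by
      apply Nat.find_min hP'
      rw [← hsdef, hr]; exact Nat.lt_succ_self r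
    push Not at hr2
    refine ⟨s, le_trans (Nat.mul_le_mul_left q hsle) hs'R, hs1, ?_⟩
    have h3 : ((q * s : ℕ) : ℤ) = ((q * r : ℕ) : ℤ) + (q : ℤ) := by
      rw [hr]; push_cast; ring
    rw [h3]
    have h4 := esh_add V ((q * r : ℕ) : ℤ) (q : ℤ)
    have h5 : (esh V (((q * r : ℕ) : ℤ) + (q : ℤ)) : ℝ) ≤
        (esh V ((q * r : ℕ) : ℤ) : ℝ) + (esh V (q:ℤ) : ℝ) := by exact_mod_cast h4
    linarith
  choose! s hs1 hs2 hs3 using hfirst
  obtain ⟨i', j', hij', hjm', he'⟩ := H (fun k => ((q * s k : ℕ) : ℤ)) (by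
    intro k hk
    refine ⟨by positivity, ?_⟩
    have := hs1 k hk
    exact_mod_cast this)
  have h1 := hs2 j' hjm'
  have h2 := hs3 i' (by omega)
  have h3 := esh_add V (((q * s j' : ℕ) : ℤ) - ((q * s i' : ℕ) : ℤ)) ((q * s i' : ℕ) : ℤ)
  rw [sub_add_cancel] at h3
  have h4 : (esh V ((q * s j' : ℕ) : ℤ) : ℝ) ≤
      (esh V (((q * s j' : ℕ) : ℤ) - ((q * s i' : ℕ) : ℤ)) : ℝ) +
      (esh V ((q * s i' : ℕ) : ℤ) : ℝ) := by exact_mod_cast h3
  have h5 : (i':ℝ) + 1 ≤ j' := by exact_mod_cast hij'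
  have h6 : 2 * (j':ℝ) * η < 2 * (i':ℝ) * η + 2 * η := by linarith
  nlinarith

/-- If `V` is almost invariant under all shifts `q s`, `s < S`, then `V + V` contains an arithmetic
progression of difference `q` and length about `S / 2`. -/
lemma exists_progression (V : Finset ℤ) (hV : V.Nonempty) (q S : ℕ)
    (H : ∀ s : ℕ, s < S → (esh V ((q * s : ℕ) : ℤ) : ℝ) ≤ V.card / 8) :
    ∃ v ∈ V, ∀ s : ℕ, S ≤ 2 * s → s < S → ∃ x ∈ V, ∃ y ∈ V, x + y = 2 * v - ((q * s : ℕ) : ℤ) := by
  classical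
  have hsum : ∑ v ∈ V, (((range S).filter (fun s => v - ((q * s : ℕ) : ℤ) ∉ V)).card : ℝ)
      ≤ ∑ v ∈ V, ((S:ℝ) / 8) := by
    have h1 : ∑ v ∈ V, ((range S).filter (fun s => v - ((q * s : ℕ) : ℤ) ∉ V)).card
        = ∑ s ∈ range S, (V.filter (fun v => v - ((q * s : ℕ) : ℤ) ∉ V)).card := by
      simp only [card_filter]
      rw [sum_comm]
    have h2 : (∑ v ∈ V, (((range S).filter (fun s => v - ((q * s : ℕ) : ℤ) ∉ V)).card : ℝ))
        = ∑ s ∈ range S, ((V.filter (fun v => v - ((q * s : ℕ) : ℤ) ∉ V)).card : ℝ) := by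
      exact_mod_cast h1
    rw [h2]
    calc ∑ s ∈ range S, ((V.filter (fun v => v - ((q * s : ℕ) : ℤ) ∉ V)).card : ℝ)
        ≤ ∑ s ∈ range S, ((V.card : ℝ) / 8) := by
          apply sum_le_sum
          intro s hs
          exact H s (mem_range.mp hs)
      _ = ∑ v ∈ V, ((S:ℝ) / 8) := by
          rw [sum_const, sum_const, card_range, nsmul_eq_mul, nsmul_eq_mul]; ring
  obtain ⟨v, hv, hvle⟩ := exists_le_of_sum_le hV hsum
  refine ⟨v, hv, ?_⟩
  intro s hs1 hs2
  set Bad := (range S).filter (fun s => v - ((q * s : ℕ) : ℤ) ∉ V) with hBad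
  have hBad8 : 8 * Bad.card ≤ S := by
    have : (8:ℝ) * (Bad.card : ℝ) ≤ S := by linarith
    exact_mod_cast this
  by_contra hcon
  push Not at hcon
  have hcover : range (s+1) ⊆ Bad ∪ Bad.image (fun a => s - a) := by
    intro a ha
    rw [mem_range] at ha
    rw [mem_union, mem_image]
    by_cases h : v - ((q * a : ℕ) : ℤ) ∈ V
    · right
      refine ⟨s - a, ?_, by omega⟩
      rw [hBad, mem_filter, mem_range]
      refine ⟨by omega, ?_⟩
      intro h2
      apply hcon _ h _ h2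
      have : ((q * (s - a) : ℕ) : ℤ) = (q:ℤ) * s - q * a := by
        rw [Nat.cast_mul, Nat.cast_sub (by omega)]; ring
      rw [this]; push_cast; ring
    · left
      rw [hBad, mem_filter, mem_range]
      exact ⟨by omega, h⟩
  have h1 := card_le_card hcover
  rw [card_range] at h1
  have h2 := card_union_le Bad (Bad.image (fun a => s - a))
  have h3 : (Bad.image (fun a => s - a)).card ≤ Bad.card := card_image_le
  omega

end Pool.Agent.RestrictedOrder
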