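import Mathlib
import Pool.Agent.RestrictedOrder.Shift

set_option autoImplicit false

/-!
# Step 3b: arithmetic progressions in iterated popular sumsets
-/

namespace Pool.Agent.RestrictedOrder

open Finset
open scoped Pointwise

open Classical in
/-- The popular sumset: the integers with at least `T` representations `v + u`, `v ∈ V`, `u ∈ U`. -/
noncomputable def popSum (U V : Finset ℤ) (T : ℝ) : Finset ℤ :=
  (V + U).filter (fun x => T ≤ ((U.filter (fun u => x - u ∈ V)).card : ℝ))

/-- The number of elements of `V + u` that are not popular. -/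
noncomputable def defect (U V : Finset ℤ) (T : ℝ) (u : ℤ) : ℕ :=
  (((V + U) \ popSum U V T).filter (fun x => x - u ∈ V)).card

lemma sum_defect (U V : Finset ℤ) (T : ℝ) (hT : 0 ≤ T) :
    ∑ u ∈ U, (defect U V T u : ℝ) ≤ T * (V + U).card := by
  classical
  have h1 : ∑ u ∈ U, defect U V T u
      = ∑ x ∈ (V + U) \ popSum U V T, (U.filter (fun u => x - u ∈ V)).card := by
    unfold defect
    simp only [card_filter]
    rw [sum_comm]
  have h2 : ∑ u ∈ U, (defect U V T u : ℝ)
      = ∑ x ∈ (V + U) \ popSum U V T, ((U.filter (fun u => x - u ∈ V)).card : ℝ) := by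
    exact_mod_cast h1
  rw [h2]
  calc ∑ x ∈ (V + U) \ popSum U V T, ((U.filter (fun u => x - u ∈ V)).card : ℝ)
      ≤ ∑ x ∈ (V + U) \ popSum U V T, T := by
        apply sum_le_sum
        intro x hx
        rw [mem_sdiff, popSum, mem_filter, not_and] at hx
        have := hx.2 hx.1
        push Not at this
        exact this.le
    _ = ((V + U) \ popSum U V T).card * T := by rw [sum_const, nsmul_eq_mul]
    _ ≤ (V + U).card * T := by
        gcongr
        exact sdiff_subset
    _ = T * (V + U).card := mul_comm _ _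

lemma card_add_esh_le (U V : Finset ℤ) (T : ℝ) (u d : ℤ) (hu : u ∈ U) (hud : u + d ∈ U) :
    V.card + esh V d ≤ (popSum U V T).card + defect U V T u + defect U V T (u + d) := by
  classical
  set X := V.image (fun x => x + u) with hX
  set Y := V.image (fun x => x + (u + d)) with hY
  have hYc : Y.card = V.card := card_image_of_injective _ (fun a b h => add_right_cancel h)
  have hXY : (X \ Y).card = esh V d := by
    unfold esh
    have : X \ Y = (V.filter (fun x => x - d ∉ V)).image (fun x => x + u) := by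
      ext z
      rw [mem_sdiff, hX, hY, mem_image, mem_image, mem_image]
      constructor
      · rintro ⟨⟨x, hx, rfl⟩, h2⟩
        refine ⟨x, ?_, rfl⟩
        rw [mem_filter]
        refine ⟨hx, ?_⟩
        intro h3
        exact h2 ⟨x - d, h3, by ring⟩
      · rintro ⟨x, hx, rfl⟩
        rw [mem_filter] at hx
        refine ⟨⟨x, hx.1, rfl⟩, ?_⟩
        rintro ⟨y, hy, hyx⟩
        apply hx.2
        have : x - d = y := by linarith
        rw [this]; exact hy
    rw [this]
    exact card_image_of_injective _ (fun a b h => add_right_cancel h)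
  have hcov : Y ∪ (X \ Y) ⊆ (popSum U V T ∪ ((V + U) \ popSum U V T).filter (fun x => x - u ∈ V))
      ∪ ((V + U) \ popSum U V T).filter (fun x => x - (u + d) ∈ V) := by
    intro z hz
    rw [mem_union, mem_sdiff] at hz
    rw [mem_union, mem_union, mem_filter, mem_filter, mem_sdiff]
    by_cases hp : z ∈ popSum U V T
    · left; left; exact hp
    rcases hz with hz | ⟨hz, -⟩
    · right
      rw [hY, mem_image] at hz
      obtain ⟨x, hx, rfl⟩ := hz
      refine ⟨⟨add_mem_add hx hud, hp⟩, ?_⟩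
      rw [add_sub_cancel_right]; exact hx
    · left; right
      rw [hX, mem_image] at hz
      obtain ⟨x, hx, rfl⟩ := hz
      refine ⟨⟨add_mem_add hx hu, hp⟩, ?_⟩
      rw [add_sub_cancel_right]; exact hx
  have h1 := card_le_card hcov
  rw [card_union_of_disjoint disjoint_sdiff] at h1
  rw [hYc, hXY] at h1
  have h2 := card_union_le (popSum U V T ∪ ((V + U) \ popSum U V T).filter (fun x => x - u ∈ V))
      (((V + U) \ popSum U V T).filter (fun x => x - (u + d) ∈ V))
  have h3 := card_union_le (popSum U V T) (((V + U) \ popSum U V T).filter (fun x => x - u ∈ V))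
  unfold defect
  omega

lemma card_le_of_Icc (V : Finset ℤ) (M : ℕ) (hV : ∀ x ∈ V, 0 ≤ x ∧ x ≤ M) : V.card ≤ M + 1 := by
  have h1 : V ⊆ Icc (0:ℤ) M := by
    intro x hx
    rw [mem_Icc]; exact hV x hx
  have := card_le_card h1
  rw [Int.card_Icc] at this
  omega

/-- Among many integers of `[0, L N]` two have a popular difference of the dense set `U`. -/
lemma exists_pop_diff (U : Finset ℤ) (N L m : ℕ) (c : ℝ) (hN : 2 ≤ N)
    (hU : ∀ x ∈ U, 0 ≤ x ∧ x ≤ N) (hc : c * N ≤ U.card) (hm : (L:ℝ) + 3 ≤ c * m)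
    (t : ℕ → ℤ) (ht : ∀ i < m, 0 ≤ t i ∧ t i ≤ ((L * N : ℕ) : ℤ)) :
    ∃ i j, i < j ∧ j < m ∧
      (N:ℝ) ≤ (m:ℝ)^2 * ((U.filter (fun x => x + (t j - t i) ∈ U)).card : ℝ) := by
  classical
  by_contra hcon
  push Not at hcon
  have hm0 : 0 < m := by
    rcases Nat.eq_zero_or_pos m with h | h
    · rw [h] at hm
      simp only [Nat.cast_zero, mul_zero] at hm
      have : (0:ℝ) ≤ L := by positivity
      linarith
    · exact h
  have hmR : (0:ℝ) < m := by exact_mod_cast hm0
  set X : ℕ → Finset ℤ := fun i => U.image (fun x => x + t i) with hX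
  have hXc : ∀ i, (X i).card = U.card := fun i =>
    card_image_of_injective _ (fun a b h => add_right_cancel h)
  set W : ℕ → Finset ℤ := fun k => (range k).biUnion X with hW
  have hinter : ∀ i j, i < j → j < m → (m:ℝ)^2 * ((X i ∩ X j).card : ℝ) ≤ N := by
    intro i j hij hjm
    refine le_trans ?_ (hcon i j hij hjm).le
    have : (X i ∩ X j).card ≤ (U.filter (fun x => x + (t j - t i) ∈ U)).card := by
      have hsub : X i ∩ X j ⊆ (U.filter (fun x => x + (t j - t i) ∈ U)).image (fun x => x + t j) := by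
        intro z hz
        rw [mem_inter, hX] at hz
        simp only [mem_image] at hz
        obtain ⟨⟨a, ha, rfl⟩, ⟨b, hb, hab⟩⟩ := hz
        rw [mem_image]
        refine ⟨b, ?_, hab⟩
        rw [mem_filter]
        refine ⟨hb, ?_⟩
        have : b + (t j - t i) = a := by linarith
        rw [this]; exact ha
      exact (card_le_card hsub).trans card_image_le
    have h2 : ((X i ∩ X j).card : ℝ) ≤ ((U.filter (fun x => x + (t j - t i) ∈ U)).card : ℝ) := by
      exact_mod_cast this
    gcongr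
  have hind : ∀ k, k ≤ m → (k:ℝ) * U.card ≤ (W k).card + k * (N / m) := by
    intro k
    induction k with
    | zero => intro _; simp [hW]
    | succ k ih =>
      intro hk
      have ih' := ih (by omega)
      have h1 : W (k+1) = W k ∪ X k := by
        simp only [hW]
        rw [range_add_one, biUnion_insert, union_comm]
      have h2 : (W (k+1)).card + (W k ∩ X k).card = (W k).card + U.card := by
        rw [h1, card_union_add_card_inter, hXc]
      have h3 : ((W k ∩ X k).card : ℝ) ≤ N / m := by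
        have h4 : W k ∩ X k = (range k).biUnion (fun i => X i ∩ X k) := by
          simp only [hW]; rw [biUnion_inter]
        have h5 : (W k ∩ X k).card ≤ ∑ i ∈ range k, (X i ∩ X k).card := by
          rw [h4]; exact card_biUnion_le
        have h6 : ((W k ∩ X k).card : ℝ) ≤ ∑ i ∈ range k, ((X i ∩ X k).card : ℝ) := by
          exact_mod_cast h5
        have h7 : ∑ i ∈ range k, ((X i ∩ X k).card : ℝ) ≤ ∑ i ∈ range k, ((N:ℝ) / (m:ℝ)^2) := by
          apply sum_le_sum
          intro i hi
          rw [le_div_iff₀ (by positivity), mul_comm]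
          exact hinter i k (mem_range.mp hi) (by omega)
        rw [sum_const, card_range, nsmul_eq_mul] at h7
        have h8 : (k:ℝ) * ((N:ℝ) / (m:ℝ)^2) ≤ N / m := by
          have hkm : (k:ℝ) ≤ m := by exact_mod_cast (by omega : k ≤ m)
          calc (k:ℝ) * ((N:ℝ) / (m:ℝ)^2) ≤ m * ((N:ℝ) / (m:ℝ)^2) := by gcongr
            _ = (N:ℝ) / m := by field_simp
        linarith
      have h2' : ((W (k+1)).card : ℝ) + ((W k ∩ X k).card : ℝ) = (W k).card + U.card := by
        exact_mod_cast h2
      push_cast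
      nlinarith
  have hfin := hind m le_rfl
  have hWm : (W m).card ≤ (L+1) * N + 1 := by
    apply card_le_of_Icc
    intro z hz
    simp only [hW, hX, mem_biUnion, mem_range, mem_image] at hz
    obtain ⟨i, hi, x, hx, rfl⟩ := hz
    have h1 := ht i hi
    have h2 := hU x hx
    push_cast at h1 ⊢
    constructor
    · linarith [h1.1, h2.1]
    · have := h1.2; have := h2.2; nlinarith
  have hWm' : ((W m).card : ℝ) ≤ (L+1) * N + 1 := by exact_mod_cast hWm
  have h9 : (m:ℝ) * ((N:ℝ) / m) = N := by field_simp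
  rw [h9] at hfin
  have h10 : (m:ℝ) * (c * N) ≤ m * U.card := by gcongr
  have h11 : ((L:ℝ) + 3) * N ≤ (c * m) * N := by gcongr
  have hN' : (2:ℝ) ≤ N := by exact_mod_cast hN
  nlinarith

lemma popSum_bound (U V : Finset ℤ) (N M : ℕ) (hU : ∀ x ∈ U, 0 ≤ x ∧ x ≤ N)
    (hV : ∀ x ∈ V, 0 ≤ x ∧ x ≤ M) : ∀ x ∈ V + U, 0 ≤ x ∧ x ≤ ((M + N : ℕ) : ℤ) := by
  intro x hx
  rw [mem_add] at hx
  obtain ⟨v, hv, u, hu, rfl⟩ := hx
  have h1 := hU u hu
  have h2 := hV v hv
  push_cast
  constructor
  · linarith [h1.1, h2.1]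
  · linarith [h1.2, h2.2]

lemma exists_growth_index (c x : ℝ) (hc : 0 < c) (hx : 0 < x) :
    ∃ J : ℕ, (J:ℝ) + 3 < (1 + x)^J * c := by
  obtain ⟨n, hn⟩ := exists_nat_gt (5 / (c * x^2))
  have hpos : 0 < c * x^2 := by positivity
  have hn0 : 0 < (n:ℝ) := lt_trans (by positivity) hn
  have hn1 : (1:ℝ) ≤ n := by
    have : 0 < n := by exact_mod_cast hn0
    exact_mod_cast this
  rw [div_lt_iff₀ hpos] at hn
  refine ⟨2 * n, ?_⟩
  have h1 : 1 + (n:ℝ) * x ≤ (1 + x)^n := one_add_mul_le_pow (by linarith) n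
  have h2 : ((n:ℝ) * x)^2 ≤ ((1+x)^n)^2 := by
    have : 0 ≤ (n:ℝ) * x := by positivity
    exact pow_le_pow_left₀ this (by linarith) 2
  have h3 : (1+x)^(2*n) = ((1+x)^n)^2 := by rw [← pow_mul, mul_comm]
  rw [h3]
  push_cast
  have h4 : 5 * (n:ℝ) < ((n:ℝ) * x)^2 * c := by nlinarith
  have h5 : ((n:ℝ) * x)^2 * c ≤ ((1+x)^n)^2 * c := by gcongr
  linarith

/-- **Structure theorem.** Iterated popular sumsets of a dense set of integers contain long
arithmetic progressions with bounded difference. -/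
theorem structure_thm (c : ℝ) (hc : 0 < c) : ∃ (J m : ℕ) (θ : ℝ) (N0 : ℕ), 0 < θ ∧
    ∀ N : ℕ, N0 ≤ N → ∀ U V0 : Finset ℤ, (∀ x ∈ U, 0 ≤ x ∧ x ≤ N) →
      (∀ x ∈ V0, 0 ≤ x ∧ x ≤ ((2 * N : ℕ) : ℤ)) → c * N ≤ U.card → c * N ≤ V0.card →
      ∀ V : ℕ → Finset ℤ, V 0 = V0 → (∀ j, V (j+1) = popSum U (V j) (θ * N)) →
      ∃ j ≤ J, ∃ q : ℕ, 1 ≤ q ∧ q ≤ m ∧ ∃ w : ℤ, w ≤ ((2 * (J + 2) * N : ℕ) : ℤ) ∧
        ∀ z : ℤ, w ≤ z → z ≤ w + 4 * N → (q:ℤ) ∣ z - w → ∃ x ∈ V j, ∃ y ∈ V j, x + y = z := by
  classical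
  obtain ⟨m, hm⟩ := exists_nat_gt (13 / c)
  have hmc : (13:ℝ) ≤ c * m := by
    rw [div_lt_iff₀ hc] at hm; linarith
  have hm0 : (0:ℝ) < m := lt_trans (by positivity) hm
  have hm1 : 1 ≤ m := by
    have : 0 < m := by exact_mod_cast hm0
    exact this
  set x : ℝ := 1 / (32 * m) with hx
  have hx0 : 0 < x := by positivity
  obtain ⟨J, hJ⟩ := exists_growth_index c x hc hx0
  set θ : ℝ := x * c / (2 * (m:ℝ)^2 * (J + 4)) with hθ
  have hθ0 : 0 < θ := by positivity
  refine ⟨J, m, θ, m + 2, hθ0, ?_⟩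
  intro N hN U V0 hU hV0 hUc hV0c V hVz hVs
  have hNm : m ≤ N := by omega
  have hN2 : 2 ≤ N := by omega
  have hNR : (2:ℝ) ≤ N := by exact_mod_cast hN2
  -- ranges
  have hrange : ∀ j, ∀ y ∈ V j, 0 ≤ y ∧ y ≤ (((j + 2) * N : ℕ) : ℤ) := by
    intro j
    induction j with
    | zero =>
      intro y hy
      rw [hVz] at hy
      simpa using hV0 y hy
    | succ j ih =>
      intro y hy
      rw [hVs j, popSum, mem_filter] at hy
      have := popSum_bound U (V j) N ((j+2)*N) hU ih y hy.1
      have e : (j+2)*N + N = (j+1+2)*N := by ring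
      rw [e] at this
      exact this
  have hcard : ∀ j, ((V j).card : ℝ) ≤ (j + 3) * N - 1 := by
    intro j
    have h1 := card_le_of_Icc (V j) ((j+2)*N) (hrange j)
    have h2 : ((V j).card : ℝ) ≤ (j+2) * N + 1 := by exact_mod_cast h1
    nlinarith
  -- slow growth somewhere
  have hgrow : ∃ j ≤ J, ((V (j+1)).card : ℝ) ≤ (1 + x) * (V j).card ∧
      c * N ≤ (V j).card := by
    by_contra hcon
    push Not at hcon
    have hind : ∀ j, j ≤ J → (1 + x)^j * (c * N) ≤ (V j).card := by
      intro j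
      induction j with
      | zero => intro _; rw [hVz]; simpa using hV0c
      | succ j ih =>
        intro hj
        have ih' := ih (by omega)
        have h1 : c * N ≤ (V j).card := by
          refine le_trans ?_ ih'
          have : (1:ℝ) ≤ (1+x)^j := one_le_pow₀ (by linarith)
          have h2 : 0 ≤ c * N := by positivity
          nlinarith
        have h2 : (1 + x) * (V j).card < ((V (j+1)).card : ℝ) := by
          by_contra h3
          push Not at h3
          exact absurd h1 (not_le.mpr (hcon j (by omega) h3))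
        calc (1 + x)^(j+1) * (c * N) = (1 + x) * ((1+x)^j * (c * N)) := by ring
          _ ≤ (1 + x) * (V j).card := by gcongr
          _ ≤ _ := h2.le
    have h1 := hind J le_rfl
    have h2 := hcard J
    have h3 : ((J:ℝ) + 3) * N < (1+x)^J * c * N := by
      have : (0:ℝ) < N := by linarith
      exact mul_lt_mul_of_pos_right hJ this
    nlinarith
  obtain ⟨j, hj, hg1, hg2⟩ := hgrow
  have hjR : (j:ℝ) ≤ J := by exact_mod_cast hj
  set η : ℝ := 2 * x * (V j).card with hη
  have hη0 : 0 ≤ η := by positivity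
  have hVjpos : (0:ℝ) < (V j).card := lt_of_lt_of_le (by positivity) hg2
  have hVUc : (((V j) + U).card : ℝ) ≤ (J + 4) * N := by
    have h1 := card_le_of_Icc _ _ (popSum_bound U (V j) N ((j+2)*N) hU (hrange j))
    have h2 : (((V j) + U).card : ℝ) ≤ (j+2) * N + N + 1 := by exact_mod_cast h1
    nlinarith
  -- among any m integers in [0, 10 N] two differ by an almost period
  have hpair : ∀ t : ℕ → ℤ, (∀ i < m, 0 ≤ t i ∧ t i ≤ ((10 * N : ℕ) : ℤ)) →
      ∃ i k, i < k ∧ k < m ∧ (esh (V j) (t k - t i) : ℝ) ≤ η := by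
    intro t ht
    obtain ⟨i, k, hik, hkm, hW⟩ := exists_pop_diff U N 10 m c hN2 hU hUc
      (by push_cast; linarith) t ht
    refine ⟨i, k, hik, hkm, ?_⟩
    set d := t k - t i with hd
    set W := U.filter (fun y => y + d ∈ U) with hWdef
    have hWpos : 0 < W.card := by
      rcases Nat.eq_zero_or_pos W.card with h | h
      · rw [h] at hW
        simp only [Nat.cast_zero, mul_zero] at hW
        linarith
      · exact h
    have hWne : W.Nonempty := card_pos.mp hWpos
    have hT0 : 0 ≤ θ * N := by positivity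
    have hsd := sum_defect U (V j) (θ * N) hT0
    have hs1 : ∑ u ∈ W, (defect U (V j) (θ * N) u : ℝ) ≤ θ * N * ((J + 4) * N) := by
      calc ∑ u ∈ W, (defect U (V j) (θ * N) u : ℝ)
          ≤ ∑ u ∈ U, (defect U (V j) (θ * N) u : ℝ) :=
            sum_le_sum_of_subset_of_nonneg (filter_subset _ _) (fun _ _ _ => by positivity)
        _ ≤ _ := hsd
        _ ≤ _ := by gcongr
    have hs2 : ∑ u ∈ W, (defect U (V j) (θ * N) (u + d) : ℝ) ≤ θ * N * ((J + 4) * N) := by
      calc ∑ u ∈ W, (defect U (V j) (θ * N) (u + d) : ℝ)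
          = ∑ u ∈ W.image (fun y => y + d), (defect U (V j) (θ * N) u : ℝ) := by
            rw [sum_image]
            intro a _ b _ hab
            exact add_right_cancel hab
        _ ≤ ∑ u ∈ U, (defect U (V j) (θ * N) u : ℝ) := by
            apply sum_le_sum_of_subset_of_nonneg
            · intro z hz
              rw [mem_image] at hz
              obtain ⟨y, hy, rfl⟩ := hz
              rw [hWdef, mem_filter] at hy
              exact hy.2
            · intros; positivity
        _ ≤ _ := hsd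
        _ ≤ _ := by gcongr
    have hs3 : ∑ u ∈ W, ((defect U (V j) (θ * N) u : ℝ) + (defect U (V j) (θ * N) (u + d) : ℝ))
        ≤ ∑ u ∈ W, (2 * (θ * N * ((J + 4) * N)) / W.card) := by
      rw [sum_add_distrib, sum_const, nsmul_eq_mul]
      have : (W.card : ℝ) * (2 * (θ * N * ((J + 4) * N)) / W.card) = 2 * (θ * N * ((J + 4) * N)) := by
        have : (W.card : ℝ) ≠ 0 := by positivity
        field_simp
      rw [this]; linarith
    obtain ⟨u, huW, hu⟩ := exists_le_of_sum_le hWne hs3
    rw [hWdef, mem_filter] at huW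
    have hce := card_add_esh_le U (V j) (θ * N) u d huW.1 huW.2
    rw [← hVs j] at hce
    have hce' : ((V j).card : ℝ) + (esh (V j) d : ℝ) ≤ (V (j+1)).card +
        (defect U (V j) (θ * N) u : ℝ) + (defect U (V j) (θ * N) (u + d) : ℝ) := by
      exact_mod_cast hce
    have hb : 2 * (θ * N * ((J + 4) * N)) / W.card ≤ x * (c * N) := by
      rw [div_le_iff₀ (by exact_mod_cast hWpos)]
      have hJ4 : (0:ℝ) < (J:ℝ) + 4 := by positivity
      have e1 : 2 * (θ * N * ((J + 4) * N)) = x * c * N * (N / (m:ℝ)^2) := by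
        rw [hθ]; field_simp
      rw [e1]
      have e2 : (N:ℝ) / (m:ℝ)^2 ≤ W.card := by
        rw [div_le_iff₀ (by positivity), mul_comm]; exact hW
      calc x * c * N * (N / (m:ℝ)^2) ≤ x * c * N * W.card := by gcongr
        _ = x * (c * N) * W.card := by ring
    have hb2 : x * (c * N) ≤ x * (V j).card := by gcongr
    rw [hη]
    nlinarith
  obtain ⟨q, hq1, hqm, hq⟩ := exists_period (V j) m (10 * N) (by omega) η hη0 hpair
  have h2mη : 2 * (m:ℝ) * η = (V j).card / 8 := by
    rw [hη, hx]; field_simp; norm_num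
  rw [h2mη] at hq
  have hVne : (V j).Nonempty := by
    rw [← card_pos]; exact_mod_cast hVjpos
  obtain ⟨v, hv, hprog⟩ := exists_progression (V j) hVne q (10 * N / q + 1) (by
    intro s hs
    apply hq
    have h1 : s ≤ 10 * N / q := by omega
    calc q * s ≤ q * (10 * N / q) := Nat.mul_le_mul_left q h1
      _ ≤ 10 * N := Nat.mul_div_le _ _)
  refine ⟨j, hj, q, hq1, hqm, 2 * v - ((q * (10 * N / q) : ℕ) : ℤ), ?_, ?_⟩
  · have h1 := (hrange j v hv).2
    have h2 : (0:ℤ) ≤ ((q * (10 * N / q) : ℕ) : ℤ) := by positivity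
    have h3 : (((j + 2) * N : ℕ) : ℤ) ≤ (((J + 2) * N : ℕ) : ℤ) := by
      exact_mod_cast Nat.mul_le_mul_right N (by omega)
    have h4 : ((2 * (J + 2) * N : ℕ) : ℤ) = 2 * (((J + 2) * N : ℕ) : ℤ) := by push_cast; ring
    rw [h4]
    linarith
  · intro z hz1 hz2 hz3
    obtain ⟨i, hi⟩ := hz3
    have hqpos : (0:ℤ) < q := by exact_mod_cast hq1
    have hi0 : 0 ≤ i := by
      by_contra hneg
      push Not at hneg
      have : (q:ℤ) * i < 0 := mul_neg_of_pos_of_neg hqpos hneg
      linarith
    obtain ⟨i', rfl⟩ := Int.eq_ofNat_of_zero_le hi0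
    have hqi : q * i' ≤ 4 * N := by
      have : (q:ℤ) * i' ≤ 4 * N := by linarith
      exact_mod_cast this
    have hi2 : 2 * i' + 1 ≤ 10 * N / q := by
      rw [Nat.le_div_iff_mul_le (by omega)]
      have : (2 * i' + 1) * q = 2 * (q * i') + q := by ring
      omega
    obtain ⟨a, ha, b, hb, hab⟩ := hprog (10 * N / q - i') (by omega) (by omega)
    refine ⟨a, ha, b, hb, ?_⟩
    rw [hab]
    have e : ((q * (10 * N / q - i') : ℕ) : ℤ) = ((q * (10 * N / q) : ℕ) : ℤ) - (q:ℤ) * i' := by
      rw [Nat.cast_mul, Nat.cast_sub (by omega), Nat.cast_mul]; ring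
    rw [e]
    linarith

end Pool.Agent.RestrictedOrder
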