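import Mathlib

set_option autoImplicit false

/-!
# Step 1: reducing the number of repetitions

If every large integer is a sum of at most `h` elements of `A`, then for every large `N` at least
`(N + 1 - n₀) / (h + 1) ^ h` integers up to `N` are sums of at most `h` distinct elements of `A`.
-/

namespace Pool.Agent.RestrictedOrder

open Finset

/-- `n` is the sum of a multiset of size at most `h` from `A` whose size exceeds the number of its
distinct elements by at most `e`. -/
def Rep (A : Set ℕ) (h e n : ℕ) : Prop :=
  ∃ M : Multiset ℕ, M.card ≤ h ∧ (∀ x ∈ M, x ∈ A) ∧ M.sum = n ∧ M.card ≤ M.toFinset.card + e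

lemma Rep.mono {A : Set ℕ} {h e e' n : ℕ} (he : e ≤ e') (H : Rep A h e n) : Rep A h e' n := by
  obtain ⟨M, h1, h2, h3, h4⟩ := H
  exact ⟨M, h1, h2, h3, by omega⟩

open Classical in
lemma rep_step (A : Set ℕ) (h e N : ℕ) :
    ((range (N+1)).filter (Rep A h (e+1))).card
      ≤ (h+1) * ((range (N+1)).filter (Rep A h e)).card := by
  set S1 := (range (N+1)).filter (Rep A h (e+1)) with hS1
  set S0 := (range (N+1)).filter (Rep A h e) with hS0
  have hsub : S0 ⊆ S1 := by
    intro n hn
    simp only [hS0, hS1, mem_filter] at hn ⊢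
    exact ⟨hn.1, hn.2.mono (by omega)⟩
  have key : ∀ n ∈ S1 \ S0, ∃ (a : ℕ) (M : Multiset ℕ), a ∈ A ∧ M.card + 1 ≤ h ∧
      (∀ x ∈ M, x ∈ A) ∧ a + M.sum = n ∧ M.card ≤ M.toFinset.card + e := by
    intro n hn
    rw [mem_sdiff] at hn
    obtain ⟨hn1, hn0⟩ := hn
    simp only [hS1, mem_filter] at hn1
    simp only [hS0, mem_filter, not_and] at hn0
    obtain ⟨M, h1, h2, h3, h4⟩ := hn1.2
    have hno : ¬ Rep A h e n := hn0 hn1.1
    have h5 : ¬ M.Nodup := by
      intro hnd
      apply hno
      refine ⟨M, h1, h2, h3, ?_⟩
      rw [Multiset.toFinset_card_of_nodup hnd]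
      omega
    rw [Multiset.nodup_iff_count_le_one] at h5
    push Not at h5
    obtain ⟨a, ha⟩ := h5
    have haM : a ∈ M := by
      rw [← Multiset.count_pos]; omega
    obtain ⟨M', rfl⟩ := Multiset.exists_cons_of_mem haM
    have haM' : a ∈ M' := by
      rw [Multiset.count_cons_self] at ha
      rw [← Multiset.count_pos]; omega
    refine ⟨a, M', h2 a haM, ?_, ?_, ?_, ?_⟩
    · rw [Multiset.card_cons] at h1; exact h1
    · intro x hx
      exact h2 x (Multiset.mem_cons_of_mem hx)
    · rw [Multiset.sum_cons] at h3; exact h3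
    · rw [Multiset.card_cons, Multiset.toFinset_cons,
        insert_eq_of_mem (Multiset.mem_toFinset.mpr haM')] at h4
      omega
  choose! a M ha hMc hMA hMs hMe using key
  have hcard : (S1 \ S0).card ≤ h * S0.card := by
    apply Finset.card_le_mul_card_image_of_maps_to (f := fun n => (M n).sum)
    · intro n hn
      simp only [hS0, mem_filter, mem_range]
      have h1 := hMs n hn
      have h2 : n ∈ S1 := (mem_sdiff.mp hn).1
      simp only [hS1, mem_filter, mem_range] at h2
      refine ⟨by omega, M n, ?_, hMA n hn, rfl, hMe n hn⟩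
      have := hMc n hn
      omega
    · intro b hb
      by_contra hcon
      push Not at hcon
      set T := (S1 \ S0).filter (fun n => (M n).sum = b) with hT
      have hTne : T.Nonempty := by
        rw [← card_pos]; omega
      obtain ⟨n0, hn0⟩ := hTne
      have hn0' := hn0
      simp only [hT, mem_filter] at hn0'
      have hinj : Set.InjOn a (T : Set ℕ) := by
        intro x hx y hy hxy
        rw [mem_coe, hT, mem_filter] at hx hy
        have h1 := hMs x hx.1
        have h2 := hMs y hy.1
        omega
      have hc1 : (T.image a).card = T.card := card_image_of_injOn hinj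
      have hc2 : (M n0).toFinset.card < (T.image a).card := by
        have h1 := Multiset.toFinset_card_le (M n0)
        have h2 := hMc n0 hn0'.1
        omega
      obtain ⟨a', ha'1, ha'2⟩ := exists_mem_notMem_of_card_lt_card hc2
      rw [mem_image] at ha'1
      obtain ⟨n1, hn1, rfl⟩ := ha'1
      have hn1' := hn1
      simp only [hT, mem_filter] at hn1'
      have hnot := (mem_sdiff.mp hn1'.1).2
      apply hnot
      have hin := (mem_sdiff.mp hn1'.1).1
      simp only [hS1, mem_filter] at hin
      simp only [hS0, mem_filter]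
      refine ⟨hin.1, (a n1) ::ₘ (M n0), ?_, ?_, ?_, ?_⟩
      · rw [Multiset.card_cons]; exact hMc n0 hn0'.1
      · intro x hx
        rw [Multiset.mem_cons] at hx
        rcases hx with rfl | hx
        · exact ha n1 hn1'.1
        · exact hMA n0 hn0'.1 x hx
      · rw [Multiset.sum_cons, hn0'.2]
        have := hMs n1 hn1'.1
        rw [hn1'.2] at this
        exact this
      · rw [Multiset.card_cons, Multiset.toFinset_cons, card_insert_of_notMem ha'2]
        have := hMe n0 hn0'.1
        omega
  have h1 : S1.card = (S1 \ S0).card + S0.card := by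
    rw [card_sdiff_add_card_eq_card hsub]
  rw [h1, add_mul, one_mul]
  omega

open Classical in
lemma rep_zero_card (A : Set ℕ) (h n₀ N : ℕ)
    (H : ∀ n, n₀ ≤ n → ∃ M : Multiset ℕ, M.card ≤ h ∧ (∀ x ∈ M, x ∈ A) ∧ M.sum = n) :
    N + 1 ≤ n₀ + (h+1)^h * ((range (N+1)).filter (Rep A h 0)).card := by
  have h1 : ∀ e, ((range (N+1)).filter (Rep A h e)).card
      ≤ (h+1)^e * ((range (N+1)).filter (Rep A h 0)).card := by
    intro e
    induction e with
    | zero => simp
    | succ e ih =>
      calc ((range (N+1)).filter (Rep A h (e+1))).card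
          ≤ (h+1) * ((range (N+1)).filter (Rep A h e)).card := rep_step A h e N
        _ ≤ (h+1) * ((h+1)^e * ((range (N+1)).filter (Rep A h 0)).card) :=
            Nat.mul_le_mul_left _ ih
        _ = _ := by rw [pow_succ]; ring
  have h2 : (range (N+1)) \ (range n₀) ⊆ (range (N+1)).filter (Rep A h h) := by
    intro n hn
    simp only [mem_sdiff, mem_range, not_lt] at hn
    simp only [mem_filter, mem_range]
    refine ⟨hn.1, ?_⟩
    obtain ⟨M, hM1, hM2, hM3⟩ := H n hn.2
    exact ⟨M, hM1, hM2, hM3, by omega⟩
  have h3 : N + 1 ≤ n₀ + ((range (N+1)) \ (range n₀)).card := by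
    have := le_card_sdiff (range n₀) (range (N+1))
    simp only [card_range] at this
    omega
  have h4 := card_le_card h2
  have h5 := h1 h
  omega

end Pool.Agent.RestrictedOrder
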