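import Mathlib
import Pool.Agent.RestrictedOrder.Excess
import Pool.Agent.RestrictedOrder.Popular

set_option autoImplicit false

/-!
# Step 2 and 3c: systems of finite subsets, popularity and robustly representable integers
-/

namespace Pool.Agent.RestrictedOrder

open Finset

/-- A system at scale `N`: a family of finite subsets of `A`, each with at most `h` elements and
with sum at most `N`, whose sums are pairwise different. -/
structure IsSystem (A : Set ℕ) (h N : ℕ) (U : Finset (Finset ℕ)) : Prop where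
  sub : ∀ u ∈ U, (↑u : Set ℕ) ⊆ A
  card_le : ∀ u ∈ U, u.card ≤ h
  sum_le : ∀ u ∈ U, ∑ x ∈ u, x ≤ N
  inj : ∀ u ∈ U, ∀ v ∈ U, ∑ x ∈ u, x = ∑ x ∈ v, x → u = v

lemma IsSystem.mono {A : Set ℕ} {h h' N : ℕ} {U : Finset (Finset ℕ)} (H : IsSystem A h N U)
    (hh : h ≤ h') : IsSystem A h' N U :=
  ⟨H.sub, fun u hu => (H.card_le u hu).trans hh, H.sum_le, H.inj⟩

lemma IsSystem.card_le_succ {A : Set ℕ} {h N : ℕ} {U : Finset (Finset ℕ)}
    (H : IsSystem A h N U) : U.card ≤ N + 1 := by
  have h1 : U.card = (U.image (fun u => ∑ x ∈ u, x)).card := by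
    rw [card_image_of_injOn]
    intro u hu v hv huv
    exact H.inj u hu v hv huv
  have h2 : U.image (fun u => ∑ x ∈ u, x) ⊆ range (N+1) := by
    intro x hx
    rw [mem_image] at hx
    obtain ⟨u, hu, rfl⟩ := hx
    rw [mem_range]
    have := H.sum_le u hu
    omega
  have h3 := card_le_card h2
  rw [card_range] at h3
  omega

/-- The number of members of the family `U` that meet `E`. -/
def pop (U : Finset (Finset ℕ)) (E : Finset ℕ) : ℕ := (U.filter (fun u => ¬ Disjoint u E)).card

lemma pop_empty (U : Finset (Finset ℕ)) : pop U ∅ = 0 := by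
  unfold pop
  rw [card_eq_zero, filter_eq_empty_iff]
  intro u _
  simp

lemma pop_union_le (U : Finset (Finset ℕ)) (E F : Finset ℕ) :
    pop U (E ∪ F) ≤ pop U E + pop U F := by
  unfold pop
  refine le_trans (card_le_card ?_) (card_union_le _ _)
  intro u hu
  rw [mem_filter, disjoint_union_right, not_and_or] at hu
  rw [mem_union, mem_filter, mem_filter]
  rcases hu.2 with h | h
  · left; exact ⟨hu.1, h⟩
  · right; exact ⟨hu.1, h⟩

lemma pop_mono (U : Finset (Finset ℕ)) {E F : Finset ℕ} (h : E ⊆ F) : pop U E ≤ pop U F := by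
  unfold pop
  apply card_le_card
  intro u hu
  rw [mem_filter] at hu ⊢
  refine ⟨hu.1, fun h2 => hu.2 (disjoint_of_subset_right h h2)⟩

lemma pop_le_card_mul (U : Finset (Finset ℕ)) (F : Finset ℕ) (τ : ℝ)
    (h : ∀ a ∈ F, (pop U {a} : ℝ) ≤ τ) : (pop U F : ℝ) ≤ F.card * τ := by
  classical
  induction F using Finset.induction_on with
  | empty => rw [pop_empty]; simp
  | insert a F ha ih =>
    have h1 := pop_union_le U {a} F
    rw [← insert_eq] at h1
    have h2 : (pop U (insert a F) : ℝ) ≤ pop U {a} + pop U F := by exact_mod_cast h1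
    have h3 := ih (fun x hx => h x (mem_insert_of_mem hx))
    have h4 := h a (mem_insert_self a F)
    rw [card_insert_of_notMem ha]
    push_cast
    linarith

/-- Passing to an unpopular system: either no element is popular or we fix a popular element. -/
lemma exists_unpopular (A : Set ℕ) (Ψ : ℝ → ℝ) (hΨ : ∀ c, 0 < c → 0 < Ψ c) (N : ℕ) :
    ∀ (h : ℕ) (c : ℝ) (U : Finset (Finset ℕ)), 0 < c → IsSystem A h N U → c * N ≤ U.card →
    ∃ i ≤ h, ∃ U' : Finset (Finset ℕ), IsSystem A h N U' ∧ (Ψ^[i] c) * N ≤ U'.card ∧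
      ∀ a, (pop U' {a} : ℝ) ≤ Ψ (Ψ^[i] c) * N := by
  classical
  intro h
  induction h with
  | zero =>
    intro c U hc hU hUc
    refine ⟨0, le_rfl, U, hU, by simpa using hUc, ?_⟩
    intro a
    have h1 : pop U {a} = 0 := by
      unfold pop
      rw [card_eq_zero, filter_eq_empty_iff]
      intro u hu
      have := hU.card_le u hu
      have h2 : u = ∅ := by rw [← card_eq_zero]; omega
      rw [h2]; simp
    rw [h1]
    have := hΨ _ hc
    simp only [Function.iterate_zero, id_eq, Nat.cast_zero]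
    positivity
  | succ h ih =>
    intro c U hc hU hUc
    by_cases hall : ∀ a, (pop U {a} : ℝ) ≤ Ψ c * N
    · exact ⟨0, by omega, U, hU, by simpa using hUc, by simpa using hall⟩
    · push Not at hall
      obtain ⟨a, ha⟩ := hall
      set W := U.filter (fun u => a ∈ u) with hW
      have hWpop : W.card = pop U {a} := by
        unfold pop
        congr 1
        ext u
        rw [hW, mem_filter, mem_filter, disjoint_singleton_right, not_not]
      have hsum : ∀ u ∈ W, a + ∑ x ∈ u.erase a, x = ∑ x ∈ u, x := by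
        intro u hu
        rw [hW, mem_filter] at hu
        exact add_sum_erase u (fun x => x) hu.2
      have hinj : Set.InjOn (fun u : Finset ℕ => u.erase a) (W : Set (Finset ℕ)) := by
        intro u hu v hv huv
        rw [mem_coe, hW, mem_filter] at hu hv
        simp only at huv
        rw [← insert_erase hu.2, ← insert_erase hv.2, huv]
      set U1 := W.image (fun u => u.erase a) with hU1
      have hU1c : U1.card = pop U {a} := by
        rw [hU1, card_image_of_injOn hinj, hWpop]
      have hsys : IsSystem A h N U1 := by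
        constructor
        · intro u hu
          rw [hU1, mem_image] at hu
          obtain ⟨v, hv, rfl⟩ := hu
          rw [hW, mem_filter] at hv
          intro x hx
          exact hU.sub v hv.1 (mem_of_mem_erase hx)
        · intro u hu
          rw [hU1, mem_image] at hu
          obtain ⟨v, hv, rfl⟩ := hu
          rw [hW, mem_filter] at hv
          have := hU.card_le v hv.1
          rw [card_erase_of_mem hv.2]
          omega
        · intro u hu
          rw [hU1, mem_image] at hu
          obtain ⟨v, hv, rfl⟩ := hu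
          have h1 := hsum v hv
          rw [hW, mem_filter] at hv
          have := hU.sum_le v hv.1
          omega
        · intro u hu v hv huv
          rw [hU1, mem_image] at hu hv
          obtain ⟨u', hu', rfl⟩ := hu
          obtain ⟨v', hv', rfl⟩ := hv
          have h1 := hsum u' hu'
          have h2 := hsum v' hv'
          rw [hW, mem_filter] at hu' hv'
          have := hU.inj u' hu'.1 v' hv'.1 (by omega)
          rw [this]
      obtain ⟨i, hi, U', hU'1, hU'2, hU'3⟩ := ih (Ψ c) U1 (hΨ c hc) hsys (by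
        rw [hU1c]; exact ha.le)
      refine ⟨i+1, by omega, U', hU'1.mono (by omega), ?_, ?_⟩
      · rw [Function.iterate_succ_apply]; exact hU'2
      · rw [Function.iterate_succ_apply]; exact hU'3

/-- `x` is robustly a sum of at most `b` distinct elements of `A`: every set `E` which meets at most
`k` members of the family `U` can be avoided. -/
def Rob (A : Set ℕ) (U : Finset (Finset ℕ)) (k : ℝ) (b : ℕ) (x : ℤ) : Prop :=
  ∀ E : Finset ℕ, (pop U E : ℝ) ≤ k →
    ∃ B : Finset ℕ, (↑B : Set ℕ) ⊆ A ∧ Disjoint B E ∧ B.card ≤ b ∧ ((∑ y ∈ B, y : ℕ) : ℤ) = x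

/-- The sums of the members of a family, as integers. -/
def sums (U : Finset (Finset ℕ)) : Finset ℤ := U.image (fun u => ((∑ y ∈ u, y : ℕ) : ℤ))

lemma card_sums {A : Set ℕ} {h N : ℕ} {U : Finset (Finset ℕ)} (H : IsSystem A h N U) :
    (sums U).card = U.card := by
  unfold sums
  rw [card_image_of_injOn]
  intro u hu v hv huv
  simp only at huv
  exact H.inj u hu v hv (by exact_mod_cast huv)

lemma sums_range {A : Set ℕ} {h N : ℕ} {U : Finset (Finset ℕ)} (H : IsSystem A h N U) :
    ∀ x ∈ sums U, 0 ≤ x ∧ x ≤ (N:ℤ) := by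
  intro x hx
  unfold sums at hx
  rw [mem_image] at hx
  obtain ⟨u, hu, rfl⟩ := hx
  exact ⟨by positivity, by exact_mod_cast H.sum_le u hu⟩

lemma rob_popSum {A : Set ℕ} {h N : ℕ} {U : Finset (Finset ℕ)} (H : IsSystem A h N U)
    (τ k T : ℝ) (hτ : 0 ≤ τ) (hpop : ∀ a, (pop U {a} : ℝ) ≤ τ) (hkT : k < T) (b : ℕ)
    (V : Finset ℤ) (hV : ∀ x ∈ V, Rob A U (k + h * τ) b x) (x : ℤ)
    (hx : x ∈ popSum (sums U) V T) : Rob A U k (b + h) x := by
  classical
  intro E hE
  rw [popSum, mem_filter] at hx
  have h1 : (((sums U).filter (fun u => x - u ∈ V)).card : ℝ) ≤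
      ((U.filter (fun u => x - ((∑ y ∈ u, y : ℕ) : ℤ) ∈ V)).card : ℝ) := by
    have : (sums U).filter (fun u => x - u ∈ V) ⊆
        (U.filter (fun u => x - ((∑ y ∈ u, y : ℕ) : ℤ) ∈ V)).image
          (fun u => ((∑ y ∈ u, y : ℕ) : ℤ)) := by
      intro z hz
      rw [mem_filter, sums, mem_image] at hz
      obtain ⟨⟨u, hu, rfl⟩, hz2⟩ := hz
      rw [mem_image]
      exact ⟨u, by rw [mem_filter]; exact ⟨hu, hz2⟩, rfl⟩
    exact_mod_cast (card_le_card this).trans card_image_le
  have h2 : (pop U E : ℝ) < ((U.filter (fun u => x - ((∑ y ∈ u, y : ℕ) : ℤ) ∈ V)).card : ℝ) := by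
    linarith [hx.2]
  have h3 : pop U E < (U.filter (fun u => x - ((∑ y ∈ u, y : ℕ) : ℤ) ∈ V)).card := by
    exact_mod_cast h2
  have h4 : ∃ u ∈ U, x - ((∑ y ∈ u, y : ℕ) : ℤ) ∈ V ∧ Disjoint u E := by
    by_contra hcon
    push Not at hcon
    apply absurd h3
    rw [not_lt]
    unfold pop
    apply card_le_card
    intro u hu
    rw [mem_filter] at hu ⊢
    exact ⟨hu.1, hcon u hu.1 hu.2⟩
  obtain ⟨u, hu, hxu, huE⟩ := h4
  have h5 : (pop U (E ∪ u) : ℝ) ≤ k + h * τ := by
    have h6 := pop_union_le U E u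
    have h7 : (pop U (E ∪ u) : ℝ) ≤ pop U E + pop U u := by exact_mod_cast h6
    have h8 := pop_le_card_mul U u τ (fun a _ => hpop a)
    have h9 : (u.card : ℝ) * τ ≤ h * τ := by
      have : (u.card : ℝ) ≤ h := by exact_mod_cast H.card_le u hu
      gcongr
    linarith
  obtain ⟨B, hBA, hBE, hBc, hBs⟩ := hV _ hxu (E ∪ u) h5
  rw [disjoint_union_right] at hBE
  refine ⟨B ∪ u, ?_, ?_, ?_, ?_⟩
  · rw [coe_union]; exact Set.union_subset hBA (H.sub u hu)
  · rw [disjoint_union_left]; exact ⟨hBE.1, huE⟩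
  · exact (card_union_le _ _).trans (add_le_add hBc (H.card_le u hu))
  · rw [sum_union hBE.2]
    push_cast at hBs ⊢
    linarith

open Classical in
/-- Many integers of `[0, 2N]` are robustly sums of at most `2h` distinct elements. -/
lemma rob_count {A : Set ℕ} {h N : ℕ} {U : Finset (Finset ℕ)} (H : IsSystem A h N U)
    (c τ k : ℝ) (hc : 0 < c) (hN : 1 ≤ N) (hτ : 0 ≤ τ) (hk : 0 ≤ k)
    (hpop : ∀ a, (pop U {a} : ℝ) ≤ τ) (hUc : c * N ≤ U.card)
    (hτ2 : h * τ ≤ c / 4 * N) (hk2 : k ≤ c^2 / 24 * N) :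
    c / 2 * N ≤ ((Icc (0:ℤ) ((2 * N : ℕ) : ℤ)).filter (fun x => Rob A U k (2 * h) x)).card := by
  set V0 := (Icc (0:ℤ) ((2 * N : ℕ) : ℤ)).filter (fun x => Rob A U k (2 * h) x) with hV0
  set P := (U ×ˢ U).filter (fun p => Disjoint p.1 p.2) with hP
  set σ : Finset ℕ × Finset ℕ → ℤ := fun p => ((∑ y ∈ p.1, y : ℕ) : ℤ) + ((∑ y ∈ p.2, y : ℕ) : ℤ)
    with hσ
  -- lower bound for the number of pairs
  have hPc : (U.card : ℝ) * (U.card - h * τ) ≤ P.card := by
    have h1 : P.card = ∑ u ∈ U, (U.filter (fun v => Disjoint u v)).card := by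
      rw [hP, card_filter, sum_product]
      apply sum_congr rfl
      intro u _
      rw [card_filter]
    have h2 : ∀ u ∈ U, (U.card : ℝ) - h * τ ≤ ((U.filter (fun v => Disjoint u v)).card : ℝ) := by
      intro u hu
      have h3 : (U.filter (fun v => Disjoint u v)).card + pop U u = U.card := by
        unfold pop
        have := card_filter_add_card_filter_not (s := U) (fun v => Disjoint v u)
        rw [← this]
        congr 2
        ext v
        rw [mem_filter, mem_filter, disjoint_comm]
      have h4 : ((U.filter (fun v => Disjoint u v)).card : ℝ) + (pop U u : ℝ) = U.card := by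
        exact_mod_cast h3
      have h5 := pop_le_card_mul U u τ (fun a _ => hpop a)
      have h6 : (u.card : ℝ) * τ ≤ h * τ := by
        have : (u.card : ℝ) ≤ h := by exact_mod_cast H.card_le u hu
        gcongr
      linarith
    have h7 := sum_le_sum h2
    rw [sum_const, nsmul_eq_mul] at h7
    have h8 : (P.card : ℝ) = ∑ u ∈ U, ((U.filter (fun v => Disjoint u v)).card : ℝ) := by
      exact_mod_cast h1
    rw [h8]; exact h7
  -- upper bound
  have hmaps : ∀ p ∈ P, σ p ∈ Icc (0:ℤ) ((2 * N : ℕ) : ℤ) := by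
    intro p hp
    rw [hP, mem_filter, mem_product] at hp
    rw [mem_Icc]
    have h1 := H.sum_le p.1 hp.1.1
    have h2 := H.sum_le p.2 hp.1.2
    simp only [hσ]
    refine ⟨by positivity, ?_⟩
    exact_mod_cast (by omega : (∑ y ∈ p.1, y) + (∑ y ∈ p.2, y) ≤ 2 * N)
  have hfib : P.card = ∑ x ∈ Icc (0:ℤ) ((2 * N : ℕ) : ℤ), (P.filter (fun p => σ p = x)).card :=
    card_eq_sum_card_fiberwise hmaps
  have hinj1 : ∀ x, Set.InjOn (fun p : Finset ℕ × Finset ℕ => p.1)
      ((P.filter (fun p => σ p = x) : Finset _) : Set (Finset ℕ × Finset ℕ)) := by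
    intro x p hp p' hp' hpp
    rw [mem_coe, mem_filter, hP, mem_filter, mem_product] at hp hp'
    simp only at hpp
    have h1 : σ p = σ p' := by rw [hp.2, hp'.2]
    simp only [hσ] at h1
    rw [hpp] at h1
    have h2 := add_left_cancel h1
    have h3 := H.inj p.2 hp.1.1.2 p'.2 hp'.1.1.2 (by exact_mod_cast h2)
    exact Prod.ext hpp h3
  have hinj2 : ∀ x, Set.InjOn (fun p : Finset ℕ × Finset ℕ => p.2)
      ((P.filter (fun p => σ p = x) : Finset _) : Set (Finset ℕ × Finset ℕ)) := by
    intro x p hp p' hp' hpp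
    rw [mem_coe, mem_filter, hP, mem_filter, mem_product] at hp hp'
    simp only at hpp
    have h1 : σ p = σ p' := by rw [hp.2, hp'.2]
    simp only [hσ] at h1
    rw [hpp] at h1
    have h2 := add_right_cancel h1
    have h3 := H.inj p.1 hp.1.1.1 p'.1 hp'.1.1.1 (by exact_mod_cast h2)
    exact Prod.ext h3 hpp
  have hb1 : ∀ x, (P.filter (fun p => σ p = x)).card ≤ U.card := by
    intro x
    apply card_le_card_of_injOn (fun p => p.1) _ (hinj1 x)
    intro p hp
    rw [mem_coe, mem_filter, hP, mem_filter, mem_product] at hp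
    exact hp.1.1.1
  have hb2 : ∀ x, ¬ Rob A U k (2 * h) x → ((P.filter (fun p => σ p = x)).card : ℝ) ≤ 2 * k := by
    intro x hx
    unfold Rob at hx
    push Not at hx
    obtain ⟨E, hE, hEB⟩ := hx
    have hsub : P.filter (fun p => σ p = x) ⊆
        (P.filter (fun p => σ p = x)).filter (fun p => ¬ Disjoint p.1 E) ∪
        (P.filter (fun p => σ p = x)).filter (fun p => ¬ Disjoint p.2 E) := by
      intro p hp
      by_contra hcon
      rw [mem_union, not_or] at hcon
      have hd1 : Disjoint p.1 E := by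
        by_contra h
        exact hcon.1 (mem_filter.mpr ⟨hp, h⟩)
      have hd2 : Disjoint p.2 E := by
        by_contra h
        exact hcon.2 (mem_filter.mpr ⟨hp, h⟩)
      rw [mem_filter, hP, mem_filter, mem_product] at hp
      apply hEB (p.1 ∪ p.2)
      · rw [coe_union]
        exact Set.union_subset (H.sub _ hp.1.1.1) (H.sub _ hp.1.1.2)
      · rw [disjoint_union_left]; exact ⟨hd1, hd2⟩
      · have h1 := H.card_le _ hp.1.1.1
        have h2 := H.card_le _ hp.1.1.2
        have h3 := card_union_le p.1 p.2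
        omega
      · rw [sum_union hp.1.2]
        have := hp.2
        simp only [hσ] at this
        push_cast at this ⊢
        exact this
    have h1 : ((P.filter (fun p => σ p = x)).filter (fun p => ¬ Disjoint p.1 E)).card ≤ pop U E := by
      unfold pop
      apply card_le_card_of_injOn (fun p => p.1)
      · intro p hp
        rw [mem_coe, mem_filter, mem_filter, hP, mem_filter, mem_product] at hp
        rw [mem_coe, mem_filter]
        exact ⟨hp.1.1.1.1, hp.2⟩
      · apply (hinj1 x).mono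
        rw [coe_subset]
        exact filter_subset _ _
    have h2 : ((P.filter (fun p => σ p = x)).filter (fun p => ¬ Disjoint p.2 E)).card ≤ pop U E := by
      unfold pop
      apply card_le_card_of_injOn (fun p => p.2)
      · intro p hp
        rw [mem_coe, mem_filter, mem_filter, hP, mem_filter, mem_product] at hp
        rw [mem_coe, mem_filter]
        exact ⟨hp.1.1.1.2, hp.2⟩
      · apply (hinj2 x).mono
        rw [coe_subset]
        exact filter_subset _ _
    have h3 : (P.filter (fun p => σ p = x)).card ≤ 2 * pop U E := by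
      have := (card_le_card hsub).trans (card_union_le _ _)
      omega
    have h4 : ((P.filter (fun p => σ p = x)).card : ℝ) ≤ 2 * pop U E := by exact_mod_cast h3
    linarith
  have hfib' : (P.card : ℝ) = ∑ x ∈ Icc (0:ℤ) ((2 * N : ℕ) : ℤ),
      ((P.filter (fun p => σ p = x)).card : ℝ) := by exact_mod_cast hfib
  have hup : (P.card : ℝ) ≤ V0.card * U.card + (2 * N + 1) * (2 * k) := by
    rw [hfib', ← sum_filter_add_sum_filter_not (Icc (0:ℤ) ((2 * N : ℕ) : ℤ))
      (fun x => Rob A U k (2 * h) x)]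
    apply add_le_add
    · calc _ ≤ ∑ x ∈ V0, (U.card : ℝ) := by
            apply sum_le_sum
            intro x _
            exact_mod_cast hb1 x
        _ = _ := by rw [sum_const, nsmul_eq_mul]
    · calc _ ≤ ∑ x ∈ (Icc (0:ℤ) ((2 * N : ℕ) : ℤ)).filter (fun x => ¬ Rob A U k (2 * h) x),
              (2 * k) := by
            apply sum_le_sum
            intro x hx
            rw [mem_filter] at hx
            exact hb2 x hx.2
        _ = ((Icc (0:ℤ) ((2 * N : ℕ) : ℤ)).filter (fun x => ¬ Rob A U k (2 * h) x)).card *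
              (2 * k) := by
            rw [sum_const, nsmul_eq_mul]
        _ ≤ _ := by
            have : ((Icc (0:ℤ) ((2 * N : ℕ) : ℤ)).filter
                (fun x => ¬ Rob A U k (2 * h) x)).card ≤ 2 * N + 1 := by
              refine (card_filter_le _ _).trans ?_
              rw [Int.card_Icc]; omega
            have h2 : (((Icc (0:ℤ) ((2 * N : ℕ) : ℤ)).filter
                (fun x => ¬ Rob A U k (2 * h) x)).card : ℝ) ≤ 2 * N + 1 := by exact_mod_cast this
            gcongr
  have hNR : (1:ℝ) ≤ N := by exact_mod_cast hN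
  have hUpos : (0:ℝ) < U.card := lt_of_lt_of_le (by positivity) hUc
  have h5 : (2 * (N:ℝ) + 1) * (2 * k) ≤ (c / 4 * N) * U.card := by
    calc (2 * (N:ℝ) + 1) * (2 * k) ≤ (3 * N) * (2 * (c^2 / 24 * N)) := by
          apply mul_le_mul <;> first | linarith | positivity
      _ = (c / 4 * N) * (c * N) := by ring
      _ ≤ _ := by gcongr
  have h6 : (U.card : ℝ) * (U.card - h * τ) ≤ (V0.card + c / 4 * N) * U.card := by
    linarith
  have h7 : (U.card : ℝ) - h * τ ≤ V0.card + c / 4 * N := by
    rw [mul_comm] at h6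
    exact le_of_mul_le_mul_right h6 hUpos
  linarith

/-- The main proposition at one scale: an unpopular dense system yields a long arithmetic
progression of bounded difference, all of whose terms are robustly representable. -/
theorem scale_prop (h : ℕ) (c : ℝ) (hc : 0 < c) : ∃ (m b C : ℕ) (κ τ : ℝ) (N0 : ℕ), 0 < κ ∧ 0 < τ ∧
    ∀ (A : Set ℕ) (N : ℕ) (U : Finset (Finset ℕ)), N0 ≤ N → IsSystem A h N U → c * N ≤ U.card →
      (∀ a, (pop U {a} : ℝ) ≤ τ * N) →
      ∃ q : ℕ, 1 ≤ q ∧ q ≤ m ∧ ∃ w : ℕ, w ≤ C * N ∧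
        ∀ z : ℕ, w ≤ z → z ≤ w + 4 * N → (q:ℤ) ∣ (z:ℤ) - w → Rob A U (κ * N) b (z:ℤ) := by
  classical
  obtain ⟨J, m, θ, N0, hθ, hst⟩ := structure_thm (c/2) (by positivity)
  set κ0 : ℝ := min (θ/2) (c^2/24) with hκ0
  have hκ0pos : 0 < κ0 := lt_min (by positivity) (by positivity)
  set τ : ℝ := min (κ0 / (2 * (2 * J + 4) * (h + 1))) (c / (4 * (h + 1))) with hτ
  have hτpos : 0 < τ := lt_min (by positivity) (by positivity)
  have hτ1 : (2 * J + 4) * (h * τ) ≤ κ0 / 2 := by
    have h1 : τ ≤ κ0 / (2 * (2 * J + 4) * (h + 1)) := min_le_left _ _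
    rw [le_div_iff₀ (by positivity)] at h1
    have : 0 ≤ (2 * (J:ℝ) + 4) * τ := by positivity
    nlinarith
  have hτ2 : h * τ ≤ c / 4 := by
    have h1 : τ ≤ c / (4 * (h + 1)) := min_le_right _ _
    rw [le_div_iff₀ (by positivity)] at h1
    nlinarith
  refine ⟨m, (2 * (J + 2)) * h, 2 * (J + 2), κ0 / 2, τ, N0 + 1, by positivity, hτpos, ?_⟩
  intro A N U hN hU hUc hpop
  have hN1 : 1 ≤ N := by omega
  have hNR : (1:ℝ) ≤ N := by exact_mod_cast hN1
  have hN0 : (0:ℝ) < N := by linarith
  set V0 := (Icc (0:ℤ) ((2 * N : ℕ) : ℤ)).filter (fun x => Rob A U (κ0 * N) (2 * h) x) with hV0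
  have hV0c : c / 2 * N ≤ V0.card := by
    apply rob_count hU c (τ * N) (κ0 * N) hc hN1 (by positivity) (by positivity) hpop hUc
    · nlinarith
    · have : κ0 ≤ c^2/24 := min_le_right _ _
      gcongr
  set V : ℕ → Finset ℤ := fun j => Nat.rec V0 (fun _ W => popSum (sums U) W (θ * N)) j with hV
  have hVz : V 0 = V0 := rfl
  have hVs : ∀ j, V (j+1) = popSum (sums U) (V j) (θ * N) := fun j => rfl
  obtain ⟨j, hj, q, hq1, hqm, w, hw, hprog⟩ := hst N (by omega) (sums U) V0 (sums_range hU)
    (by
      intro x hx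
      rw [hV0, mem_filter, mem_Icc] at hx
      exact hx.1)
    (by
      rw [card_sums hU]
      have : c / 2 * N ≤ c * N := by nlinarith
      linarith) hV0c V hVz hVs
  -- all elements of V j are robust
  have hrob : ∀ j, ∀ x ∈ V j, Rob A U (κ0 * N - j * (h * (τ * N))) ((j + 2) * h) x := by
    intro j
    induction j with
    | zero =>
      intro x hx
      rw [hVz, hV0, mem_filter] at hx
      have := hx.2
      simpa using this
    | succ j ih =>
      intro x hx
      rw [hVs j] at hx
      have hT : κ0 * N - ((j+1 : ℕ) : ℝ) * (h * (τ * N)) < θ * N := by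
        have h1 : κ0 ≤ θ/2 := min_le_left _ _
        have h2 : 0 ≤ ((j+1 : ℕ) : ℝ) * (h * (τ * N)) := by positivity
        have h3 : κ0 * N ≤ θ / 2 * N := by gcongr
        have h4 : θ / 2 * N < θ * N := by
          apply mul_lt_mul_of_pos_right _ hN0
          linarith
        linarith
      have := rob_popSum hU (τ * N) (κ0 * N - ((j+1 : ℕ) : ℝ) * (h * (τ * N))) (θ * N)
        (by positivity) hpop hT ((j + 2) * h) (V j) (by
          intro y hy
          have h5 := ih y hy
          have e : κ0 * (N:ℝ) - ((j+1 : ℕ) : ℝ) * (h * (τ * N)) + h * (τ * N)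
              = κ0 * N - j * (h * (τ * N)) := by push_cast; ring
          rw [e]; exact h5) x hx
      have e : (j + 2) * h + h = (j + 1 + 2) * h := by ring
      rw [e] at this
      exact this
  have hjR : (j:ℝ) ≤ J := by exact_mod_cast hj
  have hjh : (j + 2) * h ≤ (J + 2) * h := Nat.mul_le_mul_right h (by omega)
  have hhτN : 0 ≤ h * (τ * N) := by positivity
  have hfinal : ∀ z : ℤ, w ≤ z → z ≤ w + 4 * N → (q:ℤ) ∣ z - w →
      Rob A U (κ0 / 2 * N) ((2 * (J + 2)) * h) z := by
    intro z hz1 hz2 hz3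
    obtain ⟨x, hx, y, hy, hxy⟩ := hprog z hz1 hz2 hz3
    intro E hE
    have hbud : (2 * J + 4) * (h * (τ * N)) ≤ κ0 / 2 * N := by nlinarith
    have hj1 : (j:ℝ) * (h * (τ * N)) ≤ J * (h * (τ * N)) := by gcongr
    obtain ⟨B1, hB1A, hB1E, hB1c, hB1s⟩ := hrob j x hx E (by nlinarith)
    obtain ⟨B2, hB2A, hB2E, hB2c, hB2s⟩ := hrob j y hy (E ∪ B1) (by
      have h6 : (pop U (E ∪ B1) : ℝ) ≤ pop U E + pop U B1 := by exact_mod_cast pop_union_le U E B1
      have h8 := pop_le_card_mul U B1 (τ * N) (fun a _ => hpop a)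
      have h9 : (B1.card : ℝ) ≤ (J + 2) * h := by exact_mod_cast hB1c.trans hjh
      have h10 : (B1.card : ℝ) * (τ * N) ≤ ((J + 2) * h) * (τ * N) := by gcongr
      nlinarith)
    rw [disjoint_union_right] at hB2E
    refine ⟨B1 ∪ B2, ?_, ?_, ?_, ?_⟩
    · rw [coe_union]; exact Set.union_subset hB1A hB2A
    · rw [disjoint_union_left]; exact ⟨hB1E, hB2E.1⟩
    · have h1 := card_union_le B1 B2
      have h2 : (2 * (J + 2)) * h = (J+2) * h + (J+2) * h := by ring
      omega
    · rw [sum_union hB2E.2.symm]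
      push_cast at hB1s hB2s ⊢
      linarith
  have hw0 : 0 ≤ w := by
    obtain ⟨B, -, -, -, hBs⟩ := hfinal w le_rfl (by linarith) (by simp) ∅ (by
      rw [pop_empty]; simp only [Nat.cast_zero]; positivity)
    rw [← hBs]; positivity
  obtain ⟨w', rfl⟩ := Int.eq_ofNat_of_zero_le hw0
  refine ⟨q, hq1, hqm, w', by exact_mod_cast hw, ?_⟩
  intro z hz1 hz2 hz3
  exact hfinal z (by exact_mod_cast hz1) (by exact_mod_cast hz2) hz3

end Pool.Agent.RestrictedOrder
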