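import Mathlib
import Pool.Agent.RestrictedOrder.System

set_option autoImplicit false

/-!
# Step 4: the restricted order is bounded in terms of the order
-/

namespace Pool.Agent.RestrictedOrder

open Finset Filter

open Classical in
lemma exists_system (A : Set ℕ) (h n₀ N : ℕ)
    (H : ∀ n, n₀ ≤ n → ∃ M : Multiset ℕ, M.card ≤ h ∧ (∀ x ∈ M, x ∈ A) ∧ M.sum = n) :
    ∃ U : Finset (Finset ℕ), IsSystem A h N U ∧ N + 1 ≤ n₀ + (h+1)^h * U.card := by
  have h0 := rep_zero_card A h n₀ N H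
  set S0 := (range (N+1)).filter (Rep A h 0) with hS0
  have key : ∀ y ∈ S0, ∃ u : Finset ℕ, (↑u : Set ℕ) ⊆ A ∧ u.card ≤ h ∧ ∑ x ∈ u, x = y := by
    intro y hy
    rw [hS0, mem_filter] at hy
    obtain ⟨M, h1, h2, h3, h4⟩ := hy.2
    have hnd : M.Nodup := by
      rw [← Multiset.dedup_eq_self]
      apply Multiset.eq_of_le_of_card_le (Multiset.dedup_le M)
      have : M.toFinset.card = M.dedup.card := rfl
      omega
    refine ⟨M.toFinset, ?_, ?_, ?_⟩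
    · intro x hx
      rw [mem_coe, Multiset.mem_toFinset] at hx
      exact h2 x hx
    · exact (Multiset.toFinset_card_le M).trans h1
    · rw [Finset.sum_multiset_count M |>.symm.trans h3 |>.symm]
      apply sum_congr rfl
      intro x hx
      rw [Multiset.mem_toFinset] at hx
      rw [Multiset.count_eq_one_of_mem hnd hx, one_smul]
  choose! u hu1 hu2 hu3 using key
  refine ⟨S0.image u, ?_, ?_⟩
  · constructor
    · intro v hv
      rw [mem_image] at hv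
      obtain ⟨y, hy, rfl⟩ := hv
      exact hu1 y hy
    · intro v hv
      rw [mem_image] at hv
      obtain ⟨y, hy, rfl⟩ := hv
      exact hu2 y hy
    · intro v hv
      rw [mem_image] at hv
      obtain ⟨y, hy, rfl⟩ := hv
      rw [hu3 y hy]
      rw [hS0, mem_filter, mem_range] at hy
      omega
    · intro v hv v' hv' hvv
      rw [mem_image] at hv hv'
      obtain ⟨y, hy, rfl⟩ := hv
      obtain ⟨y', hy', rfl⟩ := hv'
      rw [hu3 y hy, hu3 y' hy'] at hvv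
      rw [hvv]
  · have : (S0.image u).card = S0.card := by
      rw [card_image_of_injOn]
      intro y hy y' hy' hyy
      rw [← hu3 y hy, ← hu3 y' hy', hyy]
    rw [this]; exact h0

lemma res_one (A : Set ℕ) (H : ∀ᶠ n in atTop, ∃ s : Finset ℕ, (↑s : Set ℕ) ⊆ A ∧ ∑ x ∈ s, x = n)
    (q : ℕ) (hq : 1 ≤ q) (r : ℕ) :
    ∃ B : Finset ℕ, (↑B : Set ℕ) ⊆ A ∧ B.card ≤ 2 * q ∧ (q:ℤ) ∣ ((∑ x ∈ B, x : ℕ) : ℤ) - r := by
  classical
  rw [eventually_atTop] at H
  obtain ⟨n0, hn0⟩ := H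
  obtain ⟨s, hsA, hss⟩ := hn0 (r + q * n0) (by nlinarith)
  set P := s.powerset.filter (fun B => (q:ℤ) ∣ ((∑ x ∈ B, x : ℕ) : ℤ) - r) with hP
  have hPne : P.Nonempty := by
    refine ⟨s, ?_⟩
    rw [hP, mem_filter, mem_powerset]
    refine ⟨subset_rfl, ?_⟩
    rw [hss]
    push_cast
    exact ⟨n0, by ring⟩
  obtain ⟨B, hB, hBmin⟩ := exists_min_image P card hPne
  rw [hP, mem_filter, mem_powerset] at hB
  refine ⟨B, ?_, ?_, hB.2⟩
  · exact (coe_subset.mpr hB.1).trans hsA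
  · by_contra hcon
    push Not at hcon
    obtain ⟨t, htB, htc, htd⟩ := Int.erdos_ginzburg_ziv (n := q) (s := B) (fun x : ℕ => (x:ℤ))
      (by omega)
    have hmem : B \ t ∈ P := by
      rw [hP, mem_filter, mem_powerset]
      refine ⟨sdiff_subset.trans hB.1, ?_⟩
      have h1 : ∑ x ∈ B \ t, x + ∑ x ∈ t, x = ∑ x ∈ B, x := sum_sdiff htB
      have h2 : ((∑ x ∈ B \ t, x : ℕ) : ℤ) - r
          = (((∑ x ∈ B, x : ℕ) : ℤ) - r) - ∑ x ∈ t, (x:ℤ) := by
        rw [← h1]; push_cast; ring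
      rw [h2]
      exact dvd_sub hB.2 htd
    have := hBmin _ hmem
    rw [card_sdiff_of_subset htB] at this
    omega

lemma residues (A : Set ℕ) (H : ∀ᶠ n in atTop, ∃ s : Finset ℕ, (↑s : Set ℕ) ⊆ A ∧ ∑ x ∈ s, x = n)
    (q : ℕ) (hq : 1 ≤ q) :
    ∃ R : Finset ℕ, (↑R : Set ℕ) ⊆ A ∧ R.card ≤ 2 * q ^ 2 ∧
      ∀ r : ℤ, ∃ B ⊆ R, B.card ≤ 2 * q ∧ (q:ℤ) ∣ ((∑ x ∈ B, x : ℕ) : ℤ) - r := by
  classical
  choose B hB1 hB2 hB3 using fun r : ℕ => res_one A H q hq r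
  refine ⟨(range q).biUnion B, ?_, ?_, ?_⟩
  · intro x hx
    rw [mem_coe, mem_biUnion] at hx
    obtain ⟨i, -, hi⟩ := hx
    exact hB1 i hi
  · calc ((range q).biUnion B).card ≤ ∑ i ∈ range q, (B i).card := card_biUnion_le
      _ ≤ ∑ i ∈ range q, 2 * q := sum_le_sum (fun i _ => hB2 i)
      _ = 2 * q ^ 2 := by rw [sum_const, card_range, smul_eq_mul]; ring
  · intro r
    have hq0 : (0:ℤ) < q := by exact_mod_cast hq
    have h1 : 0 ≤ r % q := Int.emod_nonneg r hq0.ne'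
    have h2 : r % q < q := Int.emod_lt_of_pos r hq0
    obtain ⟨i, hi⟩ := Int.eq_ofNat_of_zero_le h1
    have hiq : i < q := by
      have : (i:ℤ) < q := by rw [← hi]; exact h2
      exact_mod_cast this
    refine ⟨B i, ?_, hB2 i, ?_⟩
    · intro x hx
      rw [mem_biUnion]
      exact ⟨i, mem_range.mpr hiq, hx⟩
    · have h3 : ((∑ x ∈ B i, x : ℕ) : ℤ) - r
          = (((∑ x ∈ B i, x : ℕ) : ℤ) - i) - (r - r % q) := by rw [hi]; ring
      rw [h3]
      exact dvd_sub (hB3 i) (Int.dvd_self_sub_emod)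

lemma bad_set {A : Set ℕ} {h N : ℕ} {U : Finset (Finset ℕ)} (H : IsSystem A h N U)
    (T : ℝ) (hT : 0 < T) : ∃ Bad : Finset ℕ, (∀ a, a ∉ Bad → (pop U {a} : ℝ) ≤ T) ∧
      (Bad.card : ℝ) * T ≤ h * (N + 1) := by
  classical
  have hpa : ∀ a, pop U {a} = (U.filter (fun u => a ∈ u)).card := by
    intro a
    unfold pop
    congr 1
    ext u
    rw [mem_filter, mem_filter, disjoint_singleton_right, not_not]
  set Bad := (U.biUnion id).filter (fun a => T < (pop U {a} : ℝ)) with hBad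
  refine ⟨Bad, ?_, ?_⟩
  · intro a ha
    by_contra hcon
    push Not at hcon
    apply ha
    rw [hBad, mem_filter, mem_biUnion]
    refine ⟨?_, hcon⟩
    have h1 : 0 < pop U {a} := by
      have : (0:ℝ) < (pop U {a} : ℝ) := lt_trans hT hcon
      exact_mod_cast this
    rw [hpa, card_pos] at h1
    obtain ⟨u, hu⟩ := h1
    rw [mem_filter] at hu
    exact ⟨u, hu.1, hu.2⟩
  · have h1 : ∑ a ∈ Bad, pop U {a} ≤ h * (N + 1) := by
      calc ∑ a ∈ Bad, pop U {a} = ∑ a ∈ Bad, (U.filter (fun u => a ∈ u)).card :=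
            sum_congr rfl (fun a _ => hpa a)
        _ = ∑ u ∈ U, (Bad.filter (fun a => a ∈ u)).card := by
            simp only [card_filter]
            rw [sum_comm]
        _ ≤ ∑ u ∈ U, h := by
            apply sum_le_sum
            intro u hu
            refine le_trans (card_le_card ?_) (H.card_le u hu)
            intro a ha
            rw [mem_filter] at ha
            exact ha.2
        _ = U.card * h := by rw [sum_const, smul_eq_mul]
        _ ≤ (N + 1) * h := Nat.mul_le_mul_right h H.card_le_succ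
        _ = h * (N + 1) := mul_comm _ _
    have h2 : ∑ a ∈ Bad, (pop U {a} : ℝ) ≤ h * (N + 1) := by exact_mod_cast h1
    calc (Bad.card : ℝ) * T = ∑ a ∈ Bad, T := by rw [sum_const, nsmul_eq_mul]
      _ ≤ ∑ a ∈ Bad, (pop U {a} : ℝ) := by
          apply sum_le_sum
          intro a ha
          rw [hBad, mem_filter] at ha
          exact ha.2.le
      _ ≤ _ := h2

lemma pick {A : Set ℕ} {h N : ℕ} {U : Finset (Finset ℕ)} (H : IsSystem A h N U)
    (c τ : ℝ) (hc : 0 < c) (hUc : c * N ≤ U.card)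
    (hpop : ∀ a, (pop U {a} : ℝ) ≤ τ * N) (F : Finset ℕ) (hF : (F.card : ℝ) * τ ≤ c / 4)
    (hN : 4 < c * N) : ∃ u ∈ U, Disjoint u F ∧ c / 2 * N ≤ ((∑ x ∈ u, x : ℕ) : ℝ) := by
  classical
  by_contra hcon
  push Not at hcon
  have hsub : U ⊆ U.filter (fun u => ¬ Disjoint u F) ∪
      U.filter (fun u => ((∑ x ∈ u, x : ℕ) : ℝ) < c / 2 * N) := by
    intro u hu
    rw [mem_union, mem_filter, mem_filter]
    by_cases h : Disjoint u F
    · right; exact ⟨hu, hcon u hu h⟩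
    · left; exact ⟨hu, h⟩
  have h1 := (card_le_card hsub).trans (card_union_le _ _)
  have h2 : ((U.filter (fun u => ¬ Disjoint u F)).card : ℝ) ≤ c / 4 * N := by
    have h3 := pop_le_card_mul U F (τ * N) (fun a _ => hpop a)
    unfold pop at h3
    have h4 : (F.card : ℝ) * (τ * N) ≤ c / 4 * N := by
      have : (F.card : ℝ) * τ * N ≤ c / 4 * N := by gcongr
      linarith
    exact h3.trans h4
  have h5 : ((U.filter (fun u => ((∑ x ∈ u, x : ℕ) : ℝ) < c / 2 * N)).card : ℝ) < c / 2 * N + 1 := by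
    have h6 : (U.filter (fun u => ((∑ x ∈ u, x : ℕ) : ℝ) < c / 2 * N)).card
        ≤ (range ⌈c / 2 * N⌉₊).card := by
      apply card_le_card_of_injOn (fun u => ∑ x ∈ u, x)
      · intro u hu
        rw [mem_coe, mem_filter] at hu
        rw [mem_coe, mem_range]
        exact Nat.lt_ceil.mpr hu.2
      · intro u hu v hv huv
        rw [mem_coe, mem_filter] at hu hv
        exact H.inj u hu.1 v hv.1 huv
    rw [card_range] at h6
    have h7 : ((U.filter (fun u => ((∑ x ∈ u, x : ℕ) : ℝ) < c / 2 * N)).card : ℝ)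
        ≤ (⌈c / 2 * N⌉₊ : ℝ) := by exact_mod_cast h6
    exact lt_of_le_of_lt h7 (Nat.ceil_lt_add_one (by positivity))
  have h8 : (U.card : ℝ) ≤ ((U.filter (fun u => ¬ Disjoint u F)).card : ℝ) +
      ((U.filter (fun u => ((∑ x ∈ u, x : ℕ) : ℝ) < c / 2 * N)).card : ℝ) := by exact_mod_cast h1
  linarith

set_option maxHeartbeats 4000000 in
theorem main (h : ℕ) : ∃ F : ℕ, ∀ A : Set ℕ,
    (∀ᶠ n in atTop, ∃ s : Multiset ℕ, s.card ≤ h ∧ (∀ x ∈ s, x ∈ A) ∧ s.sum = n) →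
    (∃ t : ℕ, ∀ᶠ n in atTop, ∃ s : Finset ℕ,
      (↑s : Set ℕ) ⊆ A ∧ s.card ≤ t ∧ ∑ x ∈ s, x = n) →
    ∀ᶠ n in atTop, ∃ s : Finset ℕ, (↑s : Set ℕ) ⊆ A ∧ s.card ≤ F ∧ ∑ x ∈ s, x = n := by
  classical
  have hsp0 := fun (c : ℝ) (hc : 0 < c) => scale_prop h c hc
  choose! m b C κ τ N0 hκ hτ hsp using hsp0
  -- first chain
  set Ψ1 : ℝ → ℝ := fun c => min (τ c) (κ c / (4 * (m c + 1))) with hΨ1
  have hΨ1pos : ∀ c, 0 < c → 0 < Ψ1 c := by
    intro c hc
    have h1 := hκ c hc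
    have h2 := hτ c hc
    exact lt_min h2 (by positivity)
  set c0 : ℝ := 1 / (2 * ((h:ℝ)+1)^h) with hc0
  have hc0pos : 0 < c0 := by positivity
  have hcc : ∀ i, 0 < Ψ1^[i] c0 := by
    intro i
    induction i with
    | zero => simpa using hc0pos
    | succ i ih => rw [Function.iterate_succ_apply']; exact hΨ1pos _ ih
  set Cs : ℕ := (range (h+1)).sup (fun i => C (Ψ1^[i] c0)) + 3 with hCs
  set ms : ℕ := (range (h+1)).sup (fun i => m (Ψ1^[i] c0)) with hms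
  set bs : ℕ := (range (h+1)).sup (fun i => b (Ψ1^[i] c0)) with hbs
  set Ns : ℕ := (range (h+1)).sup (fun i => N0 (Ψ1^[i] c0)) with hNs
  have hCs' : ∀ i ≤ h, C (Ψ1^[i] c0) + 3 ≤ Cs := by
    intro i hi
    have := le_sup (f := fun i => C (Ψ1^[i] c0)) (mem_range.mpr (Nat.lt_succ_of_le hi))
    rw [hCs]; exact Nat.add_le_add_right this 3
  have hms' : ∀ i ≤ h, m (Ψ1^[i] c0) ≤ ms := fun i hi =>
    le_sup (f := fun i => m (Ψ1^[i] c0)) (mem_range.mpr (Nat.lt_succ_of_le hi))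
  have hbs' : ∀ i ≤ h, b (Ψ1^[i] c0) ≤ bs := fun i hi =>
    le_sup (f := fun i => b (Ψ1^[i] c0)) (mem_range.mpr (Nat.lt_succ_of_le hi))
  have hNs' : ∀ i ≤ h, N0 (Ψ1^[i] c0) ≤ Ns := fun i hi =>
    le_sup (f := fun i => N0 (Ψ1^[i] c0)) (mem_range.mpr (Nat.lt_succ_of_le hi))
  obtain ⟨i0, hi0, hκmin⟩ := exists_min_image (range (h+1)) (fun i => κ (Ψ1^[i] c0))
    ⟨0, by simp⟩
  set κs : ℝ := κ (Ψ1^[i0] c0) with hκs
  have hκspos : 0 < κs := hκ _ (hcc i0)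
  have hκs' : ∀ i ≤ h, κs ≤ κ (Ψ1^[i] c0) := fun i hi =>
    hκmin i (mem_range.mpr (Nat.lt_succ_of_le hi))
  -- second chain
  set M' : ℝ → ℕ := fun c => ⌈2 * ((Cs:ℝ) + 2) / c⌉₊ with hM'
  set τ' : ℝ → ℝ := fun c => κs / (2 * ((M' c : ℝ) * h + 1)) with hτ'
  have hτ'pos : ∀ c, 0 < τ' c := by
    intro c
    simp only [hτ']
    positivity
  set Ψ2 : ℝ → ℝ := fun c => c / (4 * (2 * h / τ' c + 2 * (ms:ℝ)^2 + (M' c : ℝ) * h + 1)) with hΨ2
  have hΨ2pos : ∀ c, 0 < c → 0 < Ψ2 c := by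
    intro c hc
    have := hτ'pos c
    simp only [hΨ2]
    positivity
  have hdd : ∀ i, 0 < Ψ2^[i] c0 := by
    intro i
    induction i with
    | zero => simpa using hc0pos
    | succ i ih => rw [Function.iterate_succ_apply']; exact hΨ2pos _ ih
  set Ms : ℕ := (range (h+1)).sup (fun i => M' (Ψ2^[i] c0)) with hMs
  have hMs' : ∀ i ≤ h, M' (Ψ2^[i] c0) ≤ Ms := fun i hi =>
    le_sup (f := fun i => M' (Ψ2^[i] c0)) (mem_range.mpr (Nat.lt_succ_of_le hi))
  obtain ⟨i1, hi1, hdmin⟩ := exists_min_image (range (h+1)) (fun i => Ψ2^[i] c0)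
    ⟨0, by simp⟩
  obtain ⟨N2, hN2⟩ := exists_nat_gt (4 / (Ψ2^[i1] c0))
  refine ⟨bs + Ms * h + 2 * ms, ?_⟩
  intro A hA hAt
  obtain ⟨t, hAt⟩ := hAt
  have hres0 : ∀ᶠ n in atTop, ∃ s : Finset ℕ, (↑s : Set ℕ) ⊆ A ∧ ∑ x ∈ s, x = n := by
    filter_upwards [hAt] with n hn
    obtain ⟨s, hs1, -, hs2⟩ := hn
    exact ⟨s, hs1, hs2⟩
  have hres := fun (q : ℕ) (hq : 1 ≤ q) => residues A hres0 q hq
  choose! R hR1 hR2 hR3 using hres
  set S : ℕ := (range (ms+1)).sup (fun q => ∑ x ∈ R q, x) with hS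
  have hS' : ∀ q ≤ ms, ∑ x ∈ R q, x ≤ S := fun q hq =>
    le_sup (f := fun q => ∑ x ∈ R q, x) (mem_range.mpr (Nat.lt_succ_of_le hq))
  rw [eventually_atTop] at hA
  obtain ⟨n₀, hn₀⟩ := hA
  rw [eventually_atTop]
  refine ⟨Cs * (Ns + 2 * n₀ + S + N2 + Cs + 1), ?_⟩
  intro n hn
  set N := n / Cs with hN
  have hCspos : 0 < Cs := by omega
  have hNbig : Ns + 2 * n₀ + S + N2 + Cs + 1 ≤ N := by
    rw [hN, Nat.le_div_iff_mul_le hCspos, mul_comm]; exact hn
  have hCN : Cs * N ≤ n := Nat.mul_div_le n Cs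
  have hCN2 : n < Cs * N + Cs := by
    have := Nat.lt_mul_div_succ n hCspos
    rw [← hN] at this
    linarith
  have hCN3 : n ≤ (Cs + 1) * N := by nlinarith
  have hN1 : 1 ≤ N := by omega
  have hNR : (1:ℝ) ≤ N := by exact_mod_cast hN1
  have hNpos : (0:ℝ) < N := by linarith
  -- base system
  obtain ⟨U0, hU0, hU0c⟩ := exists_system A h n₀ N hn₀
  have hU0c' : c0 * N ≤ U0.card := by
    have h1 : (N:ℝ) + 1 ≤ n₀ + ((h:ℝ)+1)^h * U0.card := by exact_mod_cast hU0c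
    have h2 : 2 * (n₀:ℝ) ≤ N := by
      have : 2 * n₀ ≤ N := by omega
      exact_mod_cast this
    rw [hc0, div_mul_eq_mul_div, one_mul, div_le_iff₀ (by positivity)]
    linarith
  obtain ⟨i, hi, U, hU, hUc, hUp⟩ := exists_unpopular A Ψ1 hΨ1pos N h c0 U0 hc0pos hU0 hU0c'
  set c1 := Ψ1^[i] c0 with hc1
  have hc1pos : 0 < c1 := hcc i
  have hNc1 : N0 c1 ≤ Ns := hNs' i hi
  have hCc1 : C c1 + 3 ≤ Cs := hCs' i hi
  have hmc1 : m c1 ≤ ms := hms' i hi
  have hbc1 : b c1 ≤ bs := hbs' i hi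
  obtain ⟨q, hq1, hqm, w, hw, hprog⟩ := hsp c1 hc1pos A N U
    (by omega) hU hUc (by
      intro a
      refine (hUp a).trans ?_
      have : Ψ1 c1 ≤ τ c1 := min_le_left _ _
      gcongr)
  have hqms : q ≤ ms := hqm.trans hmc1
  obtain ⟨i', hi', U', hU', hUc', hUp'⟩ := exists_unpopular A Ψ2 hΨ2pos N h c0 U0 hc0pos hU0 hU0c'
  set c2 := Ψ2^[i'] c0 with hc2
  have hc2pos : 0 < c2 := hdd i'
  have h4c2 : 4 < c2 * N := by
    have h1 : Ψ2^[i1] c0 ≤ c2 := hdmin i' (mem_range.mpr (Nat.lt_succ_of_le hi'))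
    rw [div_lt_iff₀ (hdd i1)] at hN2
    have h2 : (N2:ℝ) ≤ N := by
      have : N2 ≤ N := by omega
      exact_mod_cast this
    calc (4:ℝ) < N2 * Ψ2^[i1] c0 := hN2
      _ ≤ N * c2 := by
          apply mul_le_mul h2 h1 (hdd i1).le hNpos.le
      _ = c2 * N := mul_comm _ _
  have hτpos := hτ'pos c2
  obtain ⟨Bad, hBad1, hBad2⟩ := bad_set hU (τ' c2 * N) (by positivity)
  have hBadc : (Bad.card : ℝ) ≤ 2 * h / τ' c2 := by
    rw [le_div_iff₀ hτpos]
    have h1 : (Bad.card : ℝ) * τ' c2 * N ≤ 2 * h * N := by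
      have : (h:ℝ) * (N + 1) ≤ 2 * h * N := by nlinarith [(Nat.cast_nonneg h : (0:ℝ) ≤ h)]
      nlinarith
    exact le_of_mul_le_mul_right h1 hNpos
  have hRc : ((R q).card : ℝ) ≤ 2 * (ms:ℝ)^2 := by
    have h1 : (R q).card ≤ 2 * ms^2 := (hR2 q hq1).trans (by gcongr)
    exact_mod_cast h1
  set F0 := Bad ∪ R q with hF0
  have hF0c : (F0.card : ℝ) ≤ 2 * h / τ' c2 + 2 * (ms:ℝ)^2 := by
    have h1 : (F0.card : ℝ) ≤ Bad.card + (R q).card := by
      exact_mod_cast card_union_le Bad (R q)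
    linarith
  have hwC : w ≤ (Cs - 3) * N := by
    refine hw.trans ?_
    apply Nat.mul_le_mul_right
    omega
  -- greedy choice of the shift
  have hgreedy : ∀ k : ℕ, k ≤ M' c2 → ∃ E : Finset ℕ, (↑E : Set ℕ) ⊆ A ∧ Disjoint E F0 ∧
      E.card ≤ k * h ∧ (∑ x ∈ E, x) + w + 2 * N ≤ n ∧
      (n ≤ (∑ x ∈ E, x) + w + 3 * N ∨ (k:ℝ) * (c2 / 2 * N) ≤ ((∑ x ∈ E, x : ℕ) : ℝ)) := by
    intro k
    induction k with
    | zero =>
      intro _
      refine ⟨∅, by simp, by simp, by simp, ?_, ?_⟩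
      · rw [sum_empty, zero_add]
        have h1 : (Cs - 3) * N + 3 * N = Cs * N := by
          have h0 : Cs - 3 + 3 = Cs := by omega
          rw [← add_mul, h0]
        omega
      · right; simp
    | succ k ih =>
      intro hk
      obtain ⟨E, hE1, hE2, hE3, hE4, hE5⟩ := ih (by omega)
      by_cases hin : n ≤ (∑ x ∈ E, x) + w + 3 * N
      · exact ⟨E, hE1, hE2, hE3.trans (Nat.mul_le_mul_right h (by omega)), hE4, Or.inl hin⟩
      · have hE5' := hE5.resolve_left hin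
        push Not at hin
        have hFc : ((F0 ∪ E).card : ℝ) * Ψ2 c2 ≤ c2 / 4 := by
          have h1 : ((F0 ∪ E).card : ℝ) ≤ F0.card + E.card := by
            exact_mod_cast card_union_le F0 E
          have h2 : (E.card : ℝ) ≤ (M' c2 : ℝ) * h := by
            have : E.card ≤ M' c2 * h := hE3.trans (Nat.mul_le_mul_right h (by omega))
            exact_mod_cast this
          have h3 : ((F0 ∪ E).card : ℝ) ≤
              2 * h / τ' c2 + 2 * (ms:ℝ)^2 + (M' c2 : ℝ) * h + 1 := by linarith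
          have h4 : Ψ2 c2 = c2 / (4 * (2 * h / τ' c2 + 2 * (ms:ℝ)^2 + (M' c2 : ℝ) * h + 1)) := rfl
          rw [h4, mul_div_assoc', div_le_iff₀ (by positivity)]
          calc ((F0 ∪ E).card : ℝ) * c2
              ≤ (2 * h / τ' c2 + 2 * (ms:ℝ)^2 + (M' c2 : ℝ) * h + 1) * c2 := by gcongr
            _ = _ := by ring
        obtain ⟨u, huU, hud, hus⟩ := pick hU' c2 (Ψ2 c2) hc2pos hUc' hUp' (F0 ∪ E) hFc h4c2
        rw [disjoint_union_right] at hud
        have hsum : ∑ x ∈ E ∪ u, x = ∑ x ∈ E, x + ∑ x ∈ u, x := sum_union hud.2.symm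
        have huN := hU'.sum_le u huU
        refine ⟨E ∪ u, ?_, ?_, ?_, ?_, Or.inr ?_⟩
        · rw [coe_union]; exact Set.union_subset hE1 (hU'.sub u huU)
        · rw [disjoint_union_left]; exact ⟨hE2, hud.1⟩
        · have h1 := card_union_le E u
          have h2 := hU'.card_le u huU
          have h3 : (k+1) * h = k * h + h := by ring
          omega
        · rw [hsum]; omega
        · rw [hsum]; push_cast; push_cast at hE5' hus; linarith
  obtain ⟨E, hE1, hE2, hE3, hE4, hE5⟩ := hgreedy (M' c2) le_rfl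
  have hin : n ≤ (∑ x ∈ E, x) + w + 3 * N := by
    rcases hE5 with h1 | h1
    · exact h1
    · exfalso
      have h2 : 2 * ((Cs:ℝ) + 2) / c2 ≤ M' c2 := Nat.le_ceil _
      rw [div_le_iff₀ hc2pos] at h2
      have h3 : ((∑ x ∈ E, x : ℕ) : ℝ) ≤ ((Cs:ℝ) + 1) * N := by
        have : ∑ x ∈ E, x ≤ (Cs + 1) * N := by omega
        exact_mod_cast this
      have h4 : ((Cs:ℝ) + 2) * N ≤ (M' c2 : ℝ) * (c2 / 2 * N) := by nlinarith
      nlinarith
  -- residue correction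
  obtain ⟨B', hB'R, hB'c, hB'd⟩ := hR3 q hq1 ((n:ℤ) - ((∑ x ∈ E, x : ℕ) : ℤ) - w)
  have hB's : ∑ x ∈ B', x ≤ N := by
    have h1 : ∑ x ∈ B', x ≤ ∑ x ∈ R q, x := sum_le_sum_of_subset hB'R
    have h2 := hS' q hqms
    omega
  set z := n - ∑ x ∈ E, x - ∑ x ∈ B', x with hz
  have hzc : (z:ℤ) = (n:ℤ) - ((∑ x ∈ E, x : ℕ) : ℤ) - ((∑ x ∈ B', x : ℕ) : ℤ) := by
    rw [hz, Nat.cast_sub (by omega), Nat.cast_sub (by omega)]
  have hrobz := hprog z (by omega) (by omega) (by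
    rw [hzc]
    have : (n:ℤ) - ((∑ x ∈ E, x : ℕ) : ℤ) - ((∑ x ∈ B', x : ℕ) : ℤ) - w
        = -(((∑ x ∈ B', x : ℕ) : ℤ) - ((n:ℤ) - ((∑ x ∈ E, x : ℕ) : ℤ) - w)) := by ring
    rw [this]
    exact (dvd_neg).mpr hB'd)
  have hEpop : (pop U E : ℝ) ≤ κ c1 / 2 * N := by
    have h1 := pop_le_card_mul U E (τ' c2 * N) (by
      intro a ha
      apply hBad1
      intro hab
      exact disjoint_left.mp hE2 ha (mem_union_left _ hab))
    have h2 : (E.card : ℝ) ≤ (M' c2 : ℝ) * h := by exact_mod_cast hE3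
    have h3 : (E.card : ℝ) * τ' c2 ≤ κs / 2 := by
      have h4 : τ' c2 = κs / (2 * ((M' c2 : ℝ) * h + 1)) := rfl
      rw [h4, mul_div_assoc', div_le_iff₀ (by positivity)]
      calc (E.card : ℝ) * κs ≤ ((M' c2 : ℝ) * h + 1) * κs := by gcongr; linarith
        _ = _ := by ring
    have h5 : κs ≤ κ c1 := hκs' i hi
    calc (pop U E : ℝ) ≤ (E.card : ℝ) * (τ' c2 * N) := h1
      _ = (E.card : ℝ) * τ' c2 * N := by ring
      _ ≤ κ c1 / 2 * N := by gcongr; linarith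
  have hBpop : (pop U B' : ℝ) ≤ κ c1 / 2 * N := by
    have h1 := pop_le_card_mul U B' (Ψ1 c1 * N) (fun a _ => hUp a)
    have h2 : (B'.card : ℝ) ≤ 2 * (m c1 : ℝ) := by
      have : B'.card ≤ 2 * m c1 := hB'c.trans (by omega)
      exact_mod_cast this
    have h3 : Ψ1 c1 ≤ κ c1 / (4 * (m c1 + 1)) := min_le_right _ _
    have h4 : 0 < κ c1 := hκ c1 hc1pos
    have h5 : (B'.card : ℝ) * Ψ1 c1 ≤ κ c1 / 2 := by
      calc (B'.card : ℝ) * Ψ1 c1 ≤ (2 * (m c1 : ℝ)) * (κ c1 / (4 * (m c1 + 1))) := by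
            apply mul_le_mul h2 h3 (hΨ1pos c1 hc1pos).le (by positivity)
        _ = κ c1 / 2 * ((m c1 : ℝ) / (m c1 + 1)) := by field_simp; ring
        _ ≤ κ c1 / 2 * 1 := by
            gcongr
            rw [div_le_one (by positivity)]; linarith
        _ = κ c1 / 2 := mul_one _
    calc (pop U B' : ℝ) ≤ (B'.card : ℝ) * (Ψ1 c1 * N) := h1
      _ = (B'.card : ℝ) * Ψ1 c1 * N := by ring
      _ ≤ κ c1 / 2 * N := by gcongr
  obtain ⟨B, hB1, hB2, hB3, hB4⟩ := hrobz (E ∪ B') (by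
    have h1 : (pop U (E ∪ B') : ℝ) ≤ pop U E + pop U B' := by exact_mod_cast pop_union_le U E B'
    linarith)
  have hEB' : Disjoint E B' := by
    apply disjoint_of_subset_right _ hE2
    exact hB'R.trans subset_union_right
  refine ⟨B ∪ (E ∪ B'), ?_, ?_, ?_⟩
  · rw [coe_union, coe_union]
    refine Set.union_subset hB1 (Set.union_subset hE1 ?_)
    exact (coe_subset.mpr hB'R).trans (hR1 q hq1)
  · have h1 := card_union_le B (E ∪ B')
    have h2 := card_union_le E B'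
    have h4 : E.card ≤ Ms * h := hE3.trans (Nat.mul_le_mul_right h (hMs' i' hi'))
    omega
  · rw [sum_union hB2, sum_union hEB']
    have h1 : ((∑ y ∈ B, y : ℕ) : ℤ) + ((∑ x ∈ E, x : ℕ) : ℤ) + ((∑ x ∈ B', x : ℕ) : ℤ) = n := by
      rw [hB4, hzc]; ring
    have h2 : (∑ y ∈ B, y) + (∑ x ∈ E, x) + (∑ x ∈ B', x) = n := by exact_mod_cast h1
    omega

end Pool.Agent.RestrictedOrder
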